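import Mathlib

set_option autoImplicit false

/-! Connected subsets of ordered sets and the connected fixed point property. -/

namespace Pool.Agent.Lib.MP_6152be_co

/-- `x` and `y` are joined by a finite sequence of elements of `S` in which consecutive elements
are comparable. -/
def Conn {X : Type*} [PartialOrder X] (S : Set X) (x y : X) : Prop :=
  Relation.ReflTransGen (fun a b => a ∈ S ∧ b ∈ S ∧ (a ≤ b ∨ b ≤ a)) x y

/-- `S` is nonempty and its comparability graph is connected. -/
def IsConn {X : Type*} [PartialOrder X] (S : Set X) : Prop :=
  S.Nonempty ∧ ∀ x ∈ S, ∀ y ∈ S, Conn S x y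

/-- The connected fixed point property. -/
def CFPP (P : Type*) [PartialOrder P] : Prop :=
  ∀ f : P → P, Monotone f → IsConn {x | f x = x}

end Pool.Agent.Lib.MP_6152be_co
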