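import Mathlib

set_option autoImplicit false

/-! Mod 2 chain complexes of order complexes and a mod 2 Lefschetz number. -/

namespace Pool.Agent.Lib.MP_6152be_co

open Finset

noncomputable section

abbrev F2 := ZMod 2

/-- formal sums of finite subsets -/
abbrev V (X : Type*) := Finset X →₀ F2

open Classical in
def sg {X : Type*} (σ : Finset X) : V X := Finsupp.single σ 1

open Classical in
def bd {X : Type*} : V X →ₗ[F2] V X :=
  Finsupp.linearCombination F2 (fun σ : Finset X => ∑ y ∈ σ, sg (σ.erase y))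

open Classical in
def cone {X : Type*} (a : X) : V X →ₗ[F2] V X :=
  Finsupp.linearCombination F2 (fun σ : Finset X => if a ∈ σ then 0 else sg (insert a σ))

open Classical in
def push {X Y : Type*} (u : X → Y) : V X →ₗ[F2] V Y :=
  Finsupp.linearCombination F2
    (fun σ : Finset X => if Set.InjOn u (σ : Set X) then sg (σ.image u) else 0)

variable {X Y Z : Type*}

theorem two_eq (t : V X) : t + t = 0 := by
  rw [← two_smul F2 t]
  have : (2 : F2) = 0 := by decide
  rw [this, zero_smul]

open Classical in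
theorem bd_sg (σ : Finset X) : bd (sg σ) = ∑ y ∈ σ, sg (σ.erase y) := by
  simp [bd, sg, Finsupp.linearCombination_single]

open Classical in
theorem cone_sg (a : X) (σ : Finset X) :
    cone a (sg σ) = if a ∈ σ then 0 else sg (insert a σ) := by
  simp [cone, sg, Finsupp.linearCombination_single]

open Classical in
theorem push_sg (u : X → Y) (σ : Finset X) :
    push u (sg σ) = if Set.InjOn u (σ : Set X) then sg (σ.image u) else 0 := by
  simp [push, sg, Finsupp.linearCombination_single]

theorem lin_ext {W : Type*} [AddCommGroup W] [Module F2 W] {S T : V X →ₗ[F2] W}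
    (h : ∀ σ, S (sg σ) = T (sg σ)) : S = T := by
  apply Finsupp.lhom_ext'
  intro σ
  apply LinearMap.ext_ring
  exact h σ

theorem bd_cone (a : X) (t : V X) : bd (cone a t) + cone a (bd t) = t := by
  classical
  have : bd ∘ₗ cone a + cone a ∘ₗ bd = (LinearMap.id : V X →ₗ[F2] V X) := by
    apply lin_ext
    intro σ
    simp only [LinearMap.add_apply, LinearMap.comp_apply, LinearMap.id_apply]
    rw [cone_sg, bd_sg, map_sum]
    by_cases ha : a ∈ σ
    · rw [if_pos ha, map_zero, zero_add, Finset.sum_eq_single a]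
      · rw [cone_sg, if_neg (by simp)]
        congr 1
        ext x
        simp only [mem_insert, mem_erase]
        by_cases hx : x = a <;> simp [hx, ha]
      · intro y _ hy
        rw [cone_sg, if_pos (by simp [ha, Ne.symm hy])]
      · intro h; exact absurd ha h
    · rw [if_neg ha, bd_sg]
      have e1 : ∀ (s : Finset X) (x y : X) (i1 i2 : DecidableEq X),
          @Finset.erase X i1 s x = @Finset.erase X i2 s x := by
        intro s x _ i1 i2; rw [Subsingleton.elim i1 i2]
      rw [Finset.sum_insert ha, Finset.erase_insert ha, add_assoc]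
      have : ∑ y ∈ σ, sg ((insert a σ).erase y) = ∑ y ∈ σ, cone a (sg (σ.erase y)) := by
        apply Finset.sum_congr rfl
        intro y hy
        rw [cone_sg, if_neg (by simp [ha])]
        congr 1
        ext x
        simp only [mem_insert, mem_erase]
        constructor
        · rintro ⟨h1, h2 | h2⟩
          · exact Or.inl h2
          · exact Or.inr ⟨h1, h2⟩
        · rintro (h | ⟨h1, h2⟩)
          · refine ⟨?_, Or.inl h⟩
            rintro rfl
            exact ha (h ▸ hy)
          · exact ⟨h1, Or.inr h2⟩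
      rw [this, two_eq, add_zero]
  exact LinearMap.congr_fun this t

theorem bd_cone' (a : X) (t : V X) : bd (cone a t) = t + cone a (bd t) := by
  have h := bd_cone a t
  calc bd (cone a t) = bd (cone a t) + (cone a (bd t) + cone a (bd t)) := by rw [two_eq, add_zero]
    _ = t + cone a (bd t) := by rw [← add_assoc, h]

open Classical in
theorem sg_insert {a : X} {σ : Finset X} (h : a ∉ σ) : sg (insert a σ) = cone a (sg σ) := by
  rw [cone_sg, if_neg h]

theorem bd_empty : bd (sg (∅ : Finset X)) = 0 := by rw [bd_sg]; simp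

theorem bd_bd (t : V X) : bd (bd t) = 0 := by
  classical
  have : (bd ∘ₗ bd : V X →ₗ[F2] V X) = 0 := by
    apply lin_ext
    intro σ
    simp only [LinearMap.comp_apply, LinearMap.zero_apply]
    induction σ using Finset.induction_on with
    | empty => rw [bd_empty, map_zero]
    | insert a σ ha ih =>
      have e : sg (insert a σ) = cone a (sg σ) := by
        rw [← sg_insert ha]
      rw [e, bd_cone', map_add, bd_cone', ih, map_zero, add_zero, two_eq]
  exact LinearMap.congr_fun this t

theorem push_cone (u : X → Y) (a : X) (t : V X) : push u (cone a t) = cone (u a) (push u t) := by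
  classical
  have : push u ∘ₗ cone a = cone (u a) ∘ₗ push u := by
    apply lin_ext
    intro σ
    simp only [LinearMap.comp_apply]
    rw [cone_sg, push_sg]
    by_cases ha : a ∈ σ
    · rw [if_pos ha, map_zero]
      split_ifs with h
      · rw [cone_sg, if_pos (mem_image_of_mem u ha)]
      · rw [map_zero]
    · rw [if_neg ha, push_sg]
      by_cases h : Set.InjOn u (σ : Set X)
      · rw [if_pos h, cone_sg]
        by_cases h2 : u a ∈ σ.image u
        · rw [if_pos h2, if_neg]
          intro hi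
          obtain ⟨y, hy, e⟩ := mem_image.mp h2
          have := hi (by simp [hy] : y ∈ ((insert a σ : Finset X) : Set X)) (by simp) e
          exact ha (this ▸ hy)
        · rw [if_neg h2, if_pos, image_insert]
          rw [coe_insert, Set.injOn_insert (by simpa using ha)]
          exact ⟨h, by simpa using h2⟩
      · rw [if_neg h, map_zero, if_neg]
        intro hi
        exact h (hi.mono (by simp))
  exact LinearMap.congr_fun this t

theorem push_empty (u : X → Y) : push u (sg (∅ : Finset X)) = sg ∅ := by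
  rw [push_sg]; simp

theorem push_bd (u : X → Y) (t : V X) : push u (bd t) = bd (push u t) := by
  classical
  have : push u ∘ₗ bd = bd ∘ₗ push u := by
    apply lin_ext
    intro σ
    simp only [LinearMap.comp_apply]
    induction σ using Finset.induction_on with
    | empty => rw [bd_empty, map_zero, push_empty, bd_empty]
    | insert a σ ha ih =>
      have e : sg (insert a σ) = cone a (sg σ) := by
        rw [← sg_insert ha]
      rw [e, bd_cone', map_add, push_cone, push_cone, bd_cone', ih]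
  exact LinearMap.congr_fun this t

theorem push_push (u : X → Y) (v : Y → Z) (t : V X) : push v (push u t) = push (v ∘ u) t := by
  classical
  have : push v ∘ₗ push u = push (v ∘ u) := by
    apply lin_ext
    intro σ
    simp only [LinearMap.comp_apply]
    induction σ using Finset.induction_on with
    | empty => rw [push_empty, push_empty, push_empty]
    | insert a σ ha ih =>
      have e : sg (insert a σ) = cone a (sg σ) := by
        rw [← sg_insert ha]
      rw [e, push_cone, push_cone, push_cone, ih]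
      rfl
  exact LinearMap.congr_fun this t

theorem push_congr_sg {u v : X → Y} (σ : Finset X) (h : ∀ x ∈ σ, u x = v x) :
    push u (sg σ) = push v (sg σ) := by
  classical
  induction σ using Finset.induction_on with
  | empty => rw [push_empty, push_empty]
  | insert a σ ha ih =>
    have e : sg (insert a σ) = cone a (sg σ) := by
      rw [← sg_insert ha]
    rw [e, push_cone, push_cone, ih (fun x hx => h x (mem_insert_of_mem hx)),
      h a (mem_insert_self a σ)]

theorem push_id (t : V X) : push id t = t := by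
  classical
  have : push (id : X → X) = LinearMap.id := by
    apply lin_ext
    intro σ
    rw [push_sg, if_pos (Set.injOn_id _)]
    simp
  rw [this]; rfl

section Order

variable [PartialOrder X] [PartialOrder Y] [PartialOrder Z]

/-- chains contained in `S` -/
def Ch (S : Set X) (σ : Finset X) : Prop := IsChain (· ≤ ·) (σ : Set X) ∧ (σ : Set X) ⊆ S

/-- chain space of the order complex of `S` -/
def C (S : Set X) : Submodule F2 (V X) := Submodule.span F2 {t | ∃ σ, Ch S σ ∧ t = sg σ}

theorem sg_mem {S : Set X} {σ : Finset X} (h : Ch S σ) : sg σ ∈ C S :=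
  Submodule.subset_span ⟨σ, h, rfl⟩

theorem C_mono {S T : Set X} (h : S ⊆ T) : C S ≤ C T :=
  Submodule.span_mono (fun _ ⟨σ, hσ, e⟩ => ⟨σ, ⟨hσ.1, hσ.2.trans h⟩, e⟩)

theorem C_ind {S : Set X} {W : Type*} [AddCommGroup W] [Module F2 W] (T : V X →ₗ[F2] W)
    (M : Submodule F2 W) (h : ∀ σ, Ch S σ → T (sg σ) ∈ M) {t : V X} (ht : t ∈ C S) : T t ∈ M := by
  have : C S ≤ M.comap T := by
    apply Submodule.span_le.mpr
    rintro _ ⟨σ, hσ, rfl⟩
    exact h σ hσ
  exact this ht

theorem C_eq {S : Set X} {W : Type*} [AddCommGroup W] [Module F2 W] (T T' : V X →ₗ[F2] W)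
    (h : ∀ σ, Ch S σ → T (sg σ) = T' (sg σ)) {t : V X} (ht : t ∈ C S) : T t = T' t := by
  have := C_ind (T - T') ⊥ (fun σ hσ => by simp [h σ hσ]) ht
  simpa [sub_eq_zero] using this

theorem Ch.subset {S : Set X} {σ τ : Finset X} (h : Ch S σ) (hτ : τ ⊆ σ) : Ch S τ :=
  ⟨h.1.mono (by exact_mod_cast hτ), (show (τ : Set X) ⊆ σ by exact_mod_cast hτ).trans h.2⟩

theorem bd_mem {S : Set X} {t : V X} (ht : t ∈ C S) : bd t ∈ C S := by
  classical
  refine C_ind bd (C S) (fun σ hσ => ?_) ht
  rw [bd_sg]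
  exact Submodule.sum_mem _ (fun y _ => sg_mem (hσ.subset (erase_subset _ _)))

theorem push_mem {S : Set X} {T : Set Y} {u : X → Y} (hu : MonotoneOn u S) (hm : Set.MapsTo u S T)
    {t : V X} (ht : t ∈ C S) : push u t ∈ C T := by
  classical
  refine C_ind (push u) (C T) (fun σ hσ => ?_) ht
  rw [push_sg]
  split_ifs with h
  · apply sg_mem
    constructor
    · rw [coe_image]
      rintro _ ⟨a, ha, rfl⟩ _ ⟨b, hb, rfl⟩ _
      rcases hσ.1.total ha hb with h1 | h1
      · exact Or.inl (hu (hσ.2 ha) (hσ.2 hb) h1)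
      · exact Or.inr (hu (hσ.2 hb) (hσ.2 ha) h1)
    · rw [coe_image]
      rintro _ ⟨a, ha, rfl⟩
      exact hm (hσ.2 ha)
  · exact Submodule.zero_mem _

theorem cone_mem {S : Set X} {a : X} (ha : a ∈ S) (hc : ∀ x ∈ S, x ≤ a ∨ a ≤ x)
    {t : V X} (ht : t ∈ C S) : cone a t ∈ C S := by
  classical
  refine C_ind (cone a) (C S) (fun σ hσ => ?_) ht
  rw [cone_sg]
  split_ifs with h
  · exact Submodule.zero_mem _
  · apply sg_mem
    constructor
    · rw [coe_insert]
      exact hσ.1.insert (fun b hb _ => (hc b (hσ.2 hb)).symm)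
    · rw [coe_insert]
      exact Set.insert_subset ha hσ.2

/-- mod 2 acyclicity of the augmented chain complex -/
def Ac (S : Set X) : Prop := ∀ t ∈ C S, bd t = 0 → ∃ w ∈ C S, bd w = t

theorem ac_cone {S : Set X} {a : X} (ha : a ∈ S) (hc : ∀ x ∈ S, x ≤ a ∨ a ≤ x) : Ac S := by
  intro t ht h0
  refine ⟨cone a t, cone_mem ha hc ht, ?_⟩
  rw [bd_cone', h0, map_zero, add_zero]

/-- acyclic carrier lemma -/
theorem carrier {S : Set X} (u v : X → Y) (Γ : Finset X → Set Y)
    (hmono : ∀ σ τ, Ch S σ → τ ⊆ σ → Γ τ ⊆ Γ σ)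
    (hu : ∀ σ, Ch S σ → push u (sg σ) ∈ C (Γ σ)) (hv : ∀ σ, Ch S σ → push v (sg σ) ∈ C (Γ σ))
    (hac : ∀ σ, Ch S σ → σ.Nonempty → Ac (Γ σ)) :
    ∃ H : V X →ₗ[F2] V Y, ∀ σ, Ch S σ → H (sg σ) ∈ C (Γ σ) ∧
      bd (H (sg σ)) + H (bd (sg σ)) = push u (sg σ) + push v (sg σ) := by
  classical
  have step : ∀ (σ : Finset X) (Hf : (τ : Finset X) → τ ⊂ σ → V Y), ∃ w : V Y,
      (Ch S σ → (∀ τ (hτ : τ ⊂ σ), Hf τ hτ ∈ C (Γ τ)) →
        bd (∑ y ∈ σ.attach, Hf (σ.erase y.1) (erase_ssubset y.2)) =
          bd (push u (sg σ) + push v (sg σ)) →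
        w ∈ C (Γ σ) ∧ bd w + ∑ y ∈ σ.attach, Hf (σ.erase y.1) (erase_ssubset y.2) =
          push u (sg σ) + push v (sg σ)) := by
    intro σ Hf
    by_cases hyp : Ch S σ ∧ (∀ τ (hτ : τ ⊂ σ), Hf τ hτ ∈ C (Γ τ)) ∧
        bd (∑ y ∈ σ.attach, Hf (σ.erase y.1) (erase_ssubset y.2)) =
          bd (push u (sg σ) + push v (sg σ))
    · obtain ⟨h1, h2, h3⟩ := hyp
      rcases σ.eq_empty_or_nonempty with rfl | hne
      · refine ⟨0, fun _ _ _ => ⟨Submodule.zero_mem _, ?_⟩⟩
        rw [push_empty, push_empty, two_eq]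
        simp
      · obtain ⟨w, hw1, hw2⟩ := hac σ h1 hne
          (push u (sg σ) + push v (sg σ) +
            ∑ y ∈ σ.attach, Hf (σ.erase y.1) (erase_ssubset y.2))
          (Submodule.add_mem _ (Submodule.add_mem _ (hu σ h1) (hv σ h1))
            (Submodule.sum_mem _ (fun y _ =>
              C_mono (hmono σ _ h1 (erase_subset _ _)) (h2 _ _))))
          (by rw [map_add, h3, two_eq])
        refine ⟨w, fun _ _ _ => ⟨hw1, ?_⟩⟩
        rw [hw2, add_assoc, two_eq, add_zero]
    · exact ⟨0, fun h1 h2 h3 => absurd ⟨h1, h2, h3⟩ hyp⟩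
  choose st hst using step
  let Hf : Finset X → V Y := fun σ => Finset.strongInduction (fun σ f => st σ f) σ
  have hHf : ∀ σ, Hf σ = st σ (fun τ _ => Hf τ) := fun σ => Finset.strongInduction_eq _ σ
  let H : V X →ₗ[F2] V Y := Finsupp.linearCombination F2 Hf
  have hH : ∀ σ, H (sg σ) = Hf σ := by
    intro σ; simp [H, sg, Finsupp.linearCombination_single]
  have hHb : ∀ σ : Finset X, H (bd (sg σ)) = ∑ y ∈ σ.attach, Hf (σ.erase y.1) := by
    intro σ
    rw [bd_sg, map_sum, Finset.sum_attach σ (fun y => Hf (σ.erase y))]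
    exact Finset.sum_congr rfl (fun y _ => hH _)
  refine ⟨H, fun σ => ?_⟩
  induction σ using Finset.strongInduction with
  | H σ ih =>
    intro hσ
    rw [hH, hHb, hHf σ]
    apply hst σ (fun τ _ => Hf τ) hσ
    · intro τ hτ
      rw [← hH]
      exact (ih τ hτ (hσ.subset hτ.subset)).1
    · rw [← hHb]
      have e : bd (H (bd (sg σ))) + H (bd (bd (sg σ))) =
          push u (bd (sg σ)) + push v (bd (sg σ)) := by
        rw [bd_sg σ]
        simp only [map_sum]
        rw [← Finset.sum_add_distrib, ← Finset.sum_add_distrib]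
        exact Finset.sum_congr rfl (fun y hy =>
          (ih _ (erase_ssubset hy) (hσ.subset (erase_subset _ _))).2)
      rw [bd_bd, map_zero, add_zero, push_bd, push_bd] at e
      rw [e, map_add]

theorem exists_max {S : Set X} {σ : Finset X} (h : Ch S σ) (hne : σ.Nonempty) :
    ∃ m ∈ σ, ∀ x ∈ σ, x ≤ m := by
  obtain ⟨m, hm⟩ := σ.exists_maximal hne
  refine ⟨m, hm.1, fun x hx => ?_⟩
  rcases h.1.total (show x ∈ (σ : Set X) from hx) (show m ∈ (σ : Set X) from hm.1) with h1 | h1
  · exact h1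
  · exact hm.2 hx h1

/-- comparable maps are chain homotopic -/
theorem htp_of_le {S : Set X} {T : Set Y} {u v : X → Y} (hu : MonotoneOn u S) (hv : MonotoneOn v S)
    (mu : Set.MapsTo u S T) (mv : Set.MapsTo v S T) (hle : ∀ x ∈ S, u x ≤ v x) :
    ∃ H : V X →ₗ[F2] V Y, ∀ t ∈ C S, H t ∈ C T ∧ bd (H t) + H (bd t) = push u t + push v t := by
  obtain ⟨H, hH⟩ := carrier (S := S) u v (fun σ => u '' σ ∪ v '' σ)
    (fun σ τ _ h => Set.union_subset_union (Set.image_mono (by exact_mod_cast h))
      (Set.image_mono (by exact_mod_cast h)))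
    (fun σ hσ => push_mem (S := (σ : Set X)) (hu.mono hσ.2)
      (fun x hx => Or.inl ⟨x, hx, rfl⟩) (sg_mem ⟨hσ.1, subset_rfl⟩))
    (fun σ hσ => push_mem (S := (σ : Set X)) (hv.mono hσ.2)
      (fun x hx => Or.inr ⟨x, hx, rfl⟩) (sg_mem ⟨hσ.1, subset_rfl⟩))
    (fun σ hσ hne => by
      obtain ⟨m, hm, hmax⟩ := exists_max hσ hne
      refine ac_cone (a := v m) (Or.inr ⟨m, hm, rfl⟩) ?_
      rintro _ (⟨x, hx, rfl⟩ | ⟨x, hx, rfl⟩)
      · exact Or.inl ((hle x (hσ.2 hx)).trans (hv (hσ.2 hx) (hσ.2 hm) (hmax x hx)))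
      · exact Or.inl (hv (hσ.2 hx) (hσ.2 hm) (hmax x hx)))
  refine ⟨H, fun t ht => ⟨?_, ?_⟩⟩
  · refine C_ind H (C T) (fun σ hσ => C_mono ?_ (hH σ hσ).1) ht
    rintro _ (⟨x, hx, rfl⟩ | ⟨x, hx, rfl⟩)
    · exact mu (hσ.2 hx)
    · exact mv (hσ.2 hx)
  · exact C_eq (bd ∘ₗ H + H ∘ₗ bd) (push u + push v) (fun σ hσ => (hH σ hσ).2) ht

/-- one comparability step between self-maps of `S` -/
def StepOn (S : Set X) (u v : X → X) : Prop :=
  MonotoneOn u S ∧ Set.MapsTo u S S ∧ MonotoneOn v S ∧ Set.MapsTo v S S ∧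
    ((∀ x ∈ S, u x ≤ v x) ∨ (∀ x ∈ S, v x ≤ u x))

theorem homologous {S : Set X} {u v : X → X} (h : Relation.ReflTransGen (StepOn S) u v)
    {t : V X} (ht : t ∈ C S) (h0 : bd t = 0) : ∃ w ∈ C S, bd w = push u t + push v t := by
  induction h with
  | refl => exact ⟨0, Submodule.zero_mem _, by rw [map_zero, two_eq]⟩
  | @tail v v' _ hs ih =>
    obtain ⟨w, hw, e⟩ := ih
    obtain ⟨h1, h2, h3, h4, h5 | h5⟩ := hs
    · obtain ⟨H, hH⟩ := htp_of_le h1 h3 h2 h4 h5
      refine ⟨w + H t, Submodule.add_mem _ hw (hH t ht).1, ?_⟩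
      have := (hH t ht).2
      rw [h0, map_zero, add_zero] at this
      rw [map_add, e, this, add_assoc, ← add_assoc (push v t), two_eq, zero_add]
    · obtain ⟨H, hH⟩ := htp_of_le h3 h1 h4 h2 h5
      refine ⟨w + H t, Submodule.add_mem _ hw (hH t ht).1, ?_⟩
      have := (hH t ht).2
      rw [h0, map_zero, add_zero] at this
      rw [map_add, e, this, add_comm (push v' t), add_assoc, ← add_assoc (push v t), two_eq,
        zero_add]

theorem push_const_mem {S : Set X} (c : Y) {t : V X} (ht : t ∈ C S) :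
    push (fun _ : X => c) t ∈ C ({c} : Set Y) :=
  push_mem (S := S) (T := ({c} : Set Y)) (u := fun _ : X => c) (fun _ _ _ _ _ => le_refl c)
    (fun _ _ => Set.mem_singleton c) ht

theorem single_cone (c : X) : ∀ x ∈ ({c} : Set X), x ≤ c ∨ c ≤ x := by
  intro x hx
  rw [Set.mem_singleton_iff] at hx
  exact Or.inl hx.le

theorem ac_of_htp {S : Set X} {c : X} (hc : c ∈ S)
    (h : Relation.ReflTransGen (StepOn S) id (fun _ => c)) : Ac S := by
  intro t ht h0
  obtain ⟨w, hw, e⟩ := homologous h ht h0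
  have hm := push_const_mem c ht
  have hb : bd (push (fun _ : X => c) t) = 0 := by rw [← push_bd, h0, map_zero]
  obtain ⟨w', hw', e'⟩ := ac_cone (Set.mem_singleton c) (single_cone c) _ hm hb
  refine ⟨w + w', Submodule.add_mem _ hw (C_mono (Set.singleton_subset_iff.mpr hc) hw'), ?_⟩
  rw [map_add, e, e', push_id, add_assoc, two_eq, add_zero]

/-! The mod 2 Lefschetz number. -/

open Classical in
/-- all chains -/
def chains (X : Type*) [PartialOrder X] [Fintype X] : Finset (Finset X) :=
  Finset.univ.filter (Ch (Set.univ : Set X))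

theorem mem_chains [Fintype X] {σ : Finset X} : σ ∈ chains X ↔ Ch (Set.univ : Set X) σ := by
  classical
  simp [chains]

/-- trace on the chain space -/
def Lf [Fintype X] (T : V X →ₗ[F2] V X) : F2 := ∑ σ ∈ chains X, T (sg σ) σ

theorem expand [Fintype X] {t : V X} (ht : t ∈ C (Set.univ : Set X)) :
    t = ∑ σ ∈ chains X, t σ • sg σ := by
  classical
  have := C_eq (S := (Set.univ : Set X)) LinearMap.id
    (∑ σ ∈ chains X,
      (Finsupp.lapply σ : V X →ₗ[F2] F2).smulRight (sg σ)) (fun τ hτ => by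
        rw [LinearMap.sum_apply, Finset.sum_eq_single τ]
        · simp [sg]
        · intro σ _ hne
          simp [sg, Ne.symm hne]
        · intro h; exact absurd (mem_chains.mpr hτ) h) ht
  rw [LinearMap.sum_apply] at this
  exact this

theorem Lf_congr [Fintype X] {T T' : V X →ₗ[F2] V X}
    (h : ∀ σ, Ch Set.univ σ → T (sg σ) = T' (sg σ)) : Lf T = Lf T' := by
  unfold Lf
  apply Finset.sum_congr rfl
  intro σ hσ
  rw [h σ (mem_chains.mp hσ)]

theorem Lf_add [Fintype X] (T T' : V X →ₗ[F2] V X) : Lf (T + T') = Lf T + Lf T' := by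
  unfold Lf
  rw [← Finset.sum_add_distrib]
  rfl

theorem Lf_comm [Fintype X] [Fintype Y] (T : V X →ₗ[F2] V Y) (S : V Y →ₗ[F2] V X)
    (hT : ∀ σ, Ch Set.univ σ → T (sg σ) ∈ C Set.univ)
    (hS : ∀ σ, Ch Set.univ σ → S (sg σ) ∈ C Set.univ) : Lf (S ∘ₗ T) = Lf (T ∘ₗ S) := by
  unfold Lf
  have e1 : ∀ σ ∈ chains X, (S ∘ₗ T) (sg σ) σ =
      ∑ τ ∈ chains Y, T (sg σ) τ * S (sg τ) σ := by
    intro σ hσ
    rw [LinearMap.comp_apply]
    conv_lhs => rw [expand (hT σ (mem_chains.mp hσ))]
    rw [map_sum, Finsupp.finsetSum_apply]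
    apply Finset.sum_congr rfl
    intro τ _
    rw [map_smul]; rfl
  have e2 : ∀ τ ∈ chains Y, (T ∘ₗ S) (sg τ) τ =
      ∑ σ ∈ chains X, T (sg σ) τ * S (sg τ) σ := by
    intro τ hτ
    rw [LinearMap.comp_apply]
    conv_lhs => rw [expand (hS τ (mem_chains.mp hτ))]
    rw [map_sum, Finsupp.finsetSum_apply]
    apply Finset.sum_congr rfl
    intro σ _
    rw [map_smul, mul_comm]; rfl
  rw [Finset.sum_congr rfl e1, Finset.sum_congr rfl e2, Finset.sum_comm]

theorem push_sg_apply {u : X → X} (hu : Monotone u) {σ : Finset X} (hσ : Ch Set.univ σ) :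
    push u (sg σ) σ = open Classical in if ∀ x ∈ σ, u x = x then 1 else 0 := by
  classical
  by_cases h : ∀ x ∈ σ, u x = x
  · rw [if_pos h, push_congr_sg (v := id) σ h, push_id]
    simp [sg]
  · rw [if_neg h, push_sg]
    split_ifs with hi
    · have hne : σ.image u ≠ σ := by
        intro he
        apply h
        by_contra hc
        have hne : (σ.filter (fun x => u x ≠ x)).Nonempty := by
          push Not at hc
          obtain ⟨x, hx, hx'⟩ := hc
          exact ⟨x, Finset.mem_filter.mpr ⟨hx, hx'⟩⟩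
        obtain ⟨m, hm, hmax⟩ := exists_max (hσ.subset (filter_subset _ _)) hne
        obtain ⟨hm1, hm2⟩ := Finset.mem_filter.mp hm
        have hum : u m ∈ σ := by rw [← he]; exact mem_image_of_mem u hm1
        have fix : ∀ y ∈ σ, ¬ y ≤ m → u y = y := by
          intro y hy hn
          by_contra hc'
          exact hn (hmax y (Finset.mem_filter.mpr ⟨hy, hc'⟩))
        by_cases hle : u m ≤ m
        · obtain ⟨y, hy, e⟩ := mem_image.mp (show m ∈ σ.image u by rw [he]; exact hm1)
          by_cases hy2 : y ≤ m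
          · exact hm2 (le_antisymm hle (by have := hu hy2; rwa [e] at this))
          · have := fix y hy hy2
            rw [this] at e
            exact hy2 e.le
        · exact hm2 (hi hum hm1 (fix _ hum hle))
      simp only [sg, Finsupp.single_apply]
      rw [if_neg]
      intro e
      exact hne e
    · rfl

theorem Lf_push_congr [Fintype X] {u v : X → X} (hu : Monotone u) (hv : Monotone v)
    (h : ∀ x, u x = x ↔ v x = x) : Lf (push u) = Lf (push v) := by
  unfold Lf
  apply Finset.sum_congr rfl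
  intro σ hσ
  have hσ' := mem_chains.mp hσ
  rw [push_sg_apply hu hσ', push_sg_apply hv hσ']
  by_cases h1 : ∀ x ∈ σ, u x = x
  · rw [if_pos h1, if_pos (fun x hx => (h x).mp (h1 x hx))]
  · rw [if_neg h1, if_neg (fun h2 => h1 (fun x hx => (h x).mpr (h2 x hx)))]

theorem Lf_no_fix [Fintype X] {u : X → X} (hu : Monotone u) (h : ∀ x, u x ≠ x) :
    Lf (push u) = 1 := by
  classical
  unfold Lf
  rw [Finset.sum_eq_single ∅]
  · rw [push_empty]; simp [sg]
  · intro σ hσ hne
    rw [push_sg_apply hu (mem_chains.mp hσ), if_neg]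
    obtain ⟨x, hx⟩ := Finset.nonempty_iff_ne_empty.mpr hne
    exact fun hh => h x (hh x hx)
  · intro hn
    exact absurd (mem_chains.mpr (by simp [Ch])) hn

theorem Lf_htp [Fintype X] [Fintype Y] {u v : X → Y} (w : Y → X) (hw : Monotone w)
    (H : V X →ₗ[F2] V Y)
    (hH : ∀ σ, Ch Set.univ σ → H (sg σ) ∈ C Set.univ ∧
      bd (H (sg σ)) + H (bd (sg σ)) = push u (sg σ) + push v (sg σ)) :
    Lf (push (w ∘ u)) = Lf (push (w ∘ v)) := by
  have e1 : Lf (push (w ∘ u) + push (w ∘ v)) =
      Lf (bd ∘ₗ (push w ∘ₗ H) + (push w ∘ₗ H) ∘ₗ bd) := by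
    apply Lf_congr
    intro σ hσ
    simp only [LinearMap.add_apply, LinearMap.comp_apply]
    rw [← push_bd, ← map_add, (hH σ hσ).2, map_add, push_push, push_push]
  rw [Lf_add, Lf_add, Lf_comm (push w ∘ₗ H) bd
    (fun σ hσ => push_mem (hw.monotoneOn _) (Set.mapsTo_univ _ _) (hH σ hσ).1)
    (fun σ hσ => bd_mem (sg_mem hσ))] at e1
  have two : ∀ a : F2, a + a = 0 := by decide
  rw [two] at e1
  have : ∀ a b : F2, a + b = 0 → a = b := by decide
  exact this _ _ e1

theorem Lf_of_le [Fintype X] {u v : X → X} (hu : Monotone u) (hv : Monotone v) (h : u ≤ v) :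
    Lf (push u) = Lf (push v) := by
  obtain ⟨H, hH⟩ := htp_of_le (S := Set.univ) (T := Set.univ) (hu.monotoneOn _) (hv.monotoneOn _)
    (Set.mapsTo_univ _ _) (Set.mapsTo_univ _ _) (fun x _ => h x)
  exact Lf_htp id monotone_id H (fun σ hσ => hH _ (sg_mem hσ))

theorem Lf_push_comm [Fintype X] [Fintype Y] {u : X → Y} {v : Y → X} (hu : Monotone u)
    (hv : Monotone v) : Lf (push (v ∘ u)) = Lf (push (u ∘ v)) := by
  have := Lf_comm (push u) (push v)
    (fun σ hσ => push_mem (hu.monotoneOn _) (Set.mapsTo_univ _ _) (sg_mem hσ))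
    (fun σ hσ => push_mem (hv.monotoneOn _) (Set.mapsTo_univ _ _) (sg_mem hσ))
  rw [Lf_congr (T' := push (v ∘ u)) (fun σ _ => push_push u v _),
    Lf_congr (T' := push (u ∘ v)) (fun σ _ => push_push v u _)] at this
  exact this

theorem Lf_const [Fintype X] (c : X) : Lf (push (fun _ : X => c)) = 0 := by
  have h1 : ∀ σ : Finset X, Ch Set.univ σ →
      push (fun _ : X => c) (sg σ) = (bd ∘ₗ (cone c ∘ₗ push (fun _ : X => c)) +
        (cone c ∘ₗ push (fun _ : X => c)) ∘ₗ bd) (sg σ) := by
    intro σ _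
    simp only [LinearMap.add_apply, LinearMap.comp_apply]
    rw [push_bd, bd_cone]
  have h2 : ∀ σ : Finset X, Ch Set.univ σ →
      (cone c ∘ₗ push (fun _ : X => c)) (sg σ) ∈ C (Set.univ : Set X) := by
    intro σ hσ
    rw [LinearMap.comp_apply]
    exact C_mono (Set.subset_univ _)
      (cone_mem (Set.mem_singleton c) (single_cone c) (push_const_mem c (sg_mem hσ)))
  rw [Lf_congr h1, Lf_add, Lf_comm (cone c ∘ₗ push (fun _ : X => c)) bd h2
    (fun σ hσ => bd_mem (sg_mem hσ))]
  have two : ∀ a : F2, a + a = 0 := by decide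
  exact two _

end Order

end

end Pool.Agent.Lib.MP_6152be_co
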