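import Mathlib
import Pool.Agent.Lib.MP_6152be_co.Defs
import Pool.Agent.Lib.MP_6152be_co.Chain

set_option autoImplicit false

/-! Fences, homotopies of monotone maps and idempotent powers. -/

namespace Pool.Agent.Lib.MP_6152be_co

open Relation Set Function

variable {X Y Z : Type*} [PartialOrder X] [PartialOrder Y] [PartialOrder Z]

theorem Conn.rfl' {S : Set X} {x : X} : Conn S x x := ReflTransGen.refl

theorem Conn.trans {S : Set X} {x y z : X} (h : Conn S x y) (h' : Conn S y z) : Conn S x z :=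
  ReflTransGen.trans h h'

theorem Conn.of_le {S : Set X} {x y : X} (hx : x ∈ S) (hy : y ∈ S) (h : x ≤ y) : Conn S x y :=
  ReflTransGen.single ⟨hx, hy, Or.inl h⟩

theorem Conn.of_ge {S : Set X} {x y : X} (hx : x ∈ S) (hy : y ∈ S) (h : y ≤ x) : Conn S x y :=
  ReflTransGen.single ⟨hx, hy, Or.inr h⟩

theorem Conn.symm {S : Set X} {x y : X} (h : Conn S x y) : Conn S y x := by
  induction h with
  | refl => exact Conn.rfl'
  | tail _ hs ih => exact Conn.trans (ReflTransGen.single ⟨hs.2.1, hs.1, hs.2.2.symm⟩) ih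

theorem Conn.map {S : Set X} {T : Set Y} (φ : X → Y) (hm : MonotoneOn φ S) (hT : MapsTo φ S T)
    {x y : X} (h : Conn S x y) : Conn T (φ x) (φ y) := by
  induction h with
  | refl => exact Conn.rfl'
  | tail _ hs ih =>
    obtain ⟨h1, h2, h3 | h3⟩ := hs
    · exact ih.trans (Conn.of_le (hT h1) (hT h2) (hm h1 h2 h3))
    · exact ih.trans (Conn.of_ge (hT h1) (hT h2) (hm h2 h1 h3))

theorem Conn.mono {S T : Set X} (hST : S ⊆ T) {x y : X} (h : Conn S x y) : Conn T x y :=
  Conn.map id (fun _ _ _ _ h => h) hST h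

theorem Conn.mem {S : Set X} {x y : X} (h : Conn S x y) (hx : x ∈ S) : y ∈ S := by
  induction h with
  | refl => exact hx
  | tail _ hs _ => exact hs.2.1

/-- the component of `y` in `S` -/
def Comp (S : Set X) (y : X) : Set X := {z | z ∈ S ∧ Conn S z y}

theorem Conn.comp {S : Set X} {x y : X} (h : Conn S y x) : Conn (Comp S y) y x := by
  induction h with
  | refl => exact Conn.rfl'
  | @tail a b hya hs ih =>
    have h1 : Conn S y b := ReflTransGen.tail hya hs
    exact ih.trans (ReflTransGen.single ⟨⟨hs.1, Conn.symm hya⟩, ⟨hs.2.1, h1.symm⟩, hs.2.2⟩)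

theorem isConn_comp {S : Set X} {y : X} (hy : y ∈ S) : IsConn (Comp S y) :=
  ⟨⟨y, hy, Conn.rfl'⟩, fun _ hx _ hz => (hx.2.symm.comp.symm).trans hz.2.symm.comp⟩

theorem Conn.subtype {S : Set X} {x y : X} (h : Conn S x y) (hx : x ∈ S) (hy : y ∈ S) :
    Conn (univ : Set S) ⟨x, hx⟩ ⟨y, hy⟩ := by
  induction h with
  | refl => exact Conn.rfl'
  | tail _ hs ih =>
    exact (ih hs.1).trans (ReflTransGen.single ⟨trivial, trivial, hs.2.2⟩)

theorem IsConn.subtype {S : Set X} (h : IsConn S) : IsConn (univ : Set S) := by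
  obtain ⟨⟨x, hx⟩, h2⟩ := h
  exact ⟨⟨⟨x, hx⟩, trivial⟩, fun a _ b _ => (h2 a a.2 b b.2).subtype a.2 b.2⟩

theorem exists_fix_ge {T : Set X} (hT : T.Finite) {v : X → X} (hm : MonotoneOn v T)
    (hv : MapsTo v T T) {x : X} (hx : x ∈ T) (h : x ≤ v x) : ∃ y ∈ T, x ≤ y ∧ v y = y := by
  have hf : {y | y ∈ T ∧ x ≤ y ∧ y ≤ v y}.Finite := hT.subset (fun _ hy => hy.1)
  obtain ⟨y, hy⟩ := hf.exists_maximal ⟨x, hx, le_rfl, h⟩
  obtain ⟨h1, h2, h3⟩ := hy.1
  exact ⟨y, h1, h2, le_antisymm (hy.2 ⟨hv h1, h2.trans h3, hm h1 (hv h1) h3⟩ h3) h3⟩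

theorem exists_fix_le {T : Set X} (hT : T.Finite) {v : X → X} (hm : MonotoneOn v T)
    (hv : MapsTo v T T) {x : X} (hx : x ∈ T) (h : v x ≤ x) : ∃ y ∈ T, y ≤ x ∧ v y = y := by
  have hf : {y | y ∈ T ∧ y ≤ x ∧ v y ≤ y}.Finite := hT.subset (fun _ hy => hy.1)
  obtain ⟨y, hy⟩ := hf.exists_minimal ⟨x, hx, le_rfl, h⟩
  obtain ⟨h1, h2, h3⟩ := hy.1
  exact ⟨y, h1, h2, le_antisymm h3 (hy.2 ⟨hv h1, h3.trans h2, hm (hv h1) h1 h3⟩ h3)⟩

/-- a fixed point of one member of a monotone family can be followed along a fence of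
parameters -/
theorem follow {S : Set Y} {T : Set X} (hT : T.Finite) (u : Y → X → X)
    (hm : ∀ c ∈ S, ∀ c' ∈ S, ∀ x ∈ T, ∀ x' ∈ T, c ≤ c' → x ≤ x' → u c x ≤ u c' x')
    (hmap : ∀ c ∈ S, ∀ x ∈ T, u c x ∈ T) {c c' : Y} (h : Conn S c c') {x : X}
    (hx : x ∈ T) (hfix : u c x = x) :
    ∃ x' ∈ T, u c' x' = x' ∧
      Conn {z : Y × X | z.1 ∈ S ∧ z.2 ∈ T ∧ u z.1 z.2 = z.2} (c, x) (c', x') := by
  induction h with
  | refl => exact ⟨x, hx, hfix, Conn.rfl'⟩
  | @tail a b _ hs ih =>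
    obtain ⟨x1, h1, h2, h3⟩ := ih
    obtain ⟨ha, hb, hab | hab⟩ := hs
    · obtain ⟨y, hy, hle, hf⟩ := exists_fix_ge hT (v := u b)
        (fun p hp q hq hpq => hm b hb b hb p hp q hq le_rfl hpq) (fun p hp => hmap b hb p hp) h1
        (by have := hm a ha b hb x1 h1 x1 h1 hab le_rfl; rwa [h2] at this)
      exact ⟨y, hy, hf, h3.trans (Conn.of_le ⟨ha, h1, h2⟩ ⟨hb, hy, hf⟩ ⟨hab, hle⟩)⟩
    · obtain ⟨y, hy, hle, hf⟩ := exists_fix_le hT (v := u b)
        (fun p hp q hq hpq => hm b hb b hb p hp q hq le_rfl hpq) (fun p hp => hmap b hb p hp) h1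
        (by have := hm b hb a ha x1 h1 x1 h1 hab le_rfl; rwa [h2] at this)
      exact ⟨y, hy, hf, h3.trans (Conn.of_ge ⟨ha, h1, h2⟩ ⟨hb, hy, hf⟩ ⟨hab, hle⟩)⟩

/-- the `N`-th iterate is idempotent -/
def Idem {α : Type*} (N : ℕ) (u : α → α) : Prop := ∀ x, u^[N] (u^[N] x) = u^[N] x

theorem Idem.mul {α : Type*} {N : ℕ} {u : α → α} (h : Idem N u) (k : ℕ) (x : α) :
    u^[N * (k + 1)] x = u^[N] x := by
  induction k with
  | zero => simp
  | succ k ih => rw [Nat.mul_succ, add_comm, iterate_add_apply, ih, h]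

theorem Idem.mul' {α : Type*} {N : ℕ} {u : α → α} (h : Idem N u) (k : ℕ) :
    Idem (N * (k + 1)) u := by
  intro x
  rw [h.mul, h.mul, h]

theorem exists_idem_one {α : Type*} [Finite α] (u : α → α) : ∃ n, 0 < n ∧ Idem n u := by
  obtain ⟨i, j, hne, e⟩ := Finite.exists_ne_map_eq_of_infinite (fun n : ℕ => u^[n])
  wlog hij : i < j generalizing i j
  · exact this j i hne.symm e.symm (by omega)
  obtain ⟨p, rfl⟩ : ∃ p, j = i + (p + 1) := ⟨j - i - 1, by omega⟩
  have h1 : ∀ k x, u^[i + k * (p + 1)] x = u^[i] x := by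
    intro k
    induction k with
    | zero => simp
    | succ k ih =>
      intro x
      have : i + (k + 1) * (p + 1) = i + k * (p + 1) + (p + 1) := by ring
      rw [this, iterate_add_apply, ih, ← iterate_add_apply]
      exact (congrFun e x).symm
  refine ⟨(i + 1) * (p + 1), by positivity, fun x => ?_⟩
  have e1 : (i + 1) * (p + 1) = (i * p + p + 1) + i := by ring
  have e2 := h1 (i + 1) x
  rw [iterate_add_apply] at e2
  calc u^[(i + 1) * (p + 1)] (u^[(i + 1) * (p + 1)] x)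
      = u^[i * p + p + 1] (u^[i] (u^[(i + 1) * (p + 1)] x)) := by
        rw [← iterate_add_apply u (i * p + p + 1) i, ← e1]
    _ = u^[(i + 1) * (p + 1)] x := by rw [e2, ← iterate_add_apply, ← e1]

theorem exists_idem (α : Type*) [Finite α] : ∃ N, ∀ u : α → α, Idem (N + 1) u := by
  classical
  have := Fintype.ofFinite (α → α)
  choose n hn using fun u : α → α => exists_idem_one u
  have hpos : 0 < ∏ u, n u := Finset.prod_pos (fun u _ => (hn u).1)
  refine ⟨∏ u, n u - 1, fun u => ?_⟩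
  obtain ⟨k, hk⟩ := Finset.dvd_prod_of_mem n (Finset.mem_univ u)
  have hk0 : k ≠ 0 := by rintro rfl; omega
  obtain ⟨k', rfl⟩ := Nat.exists_eq_succ_of_ne_zero hk0
  rw [Nat.sub_add_cancel hpos, hk]
  exact (hn u).2.mul' k'

theorem Idem.fix_iff {α : Type*} {N : ℕ} {u : α → α} (h : Idem (N + 1) u) (x : α) :
    u^[N + 1 + 1] x = x ↔ u x = x := by
  constructor
  · intro hx
    have h1 : u^[(N + 1 + 1) * (N + 1)] x = x := by
      rw [iterate_mul]; exact iterate_fixed hx _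
    rw [mul_comm, h.mul] at h1
    rw [iterate_succ_apply', h1] at hx
    exact hx
  · intro hx
    exact iterate_fixed hx _

theorem le_iter {v : X → X} (hv : Monotone v) {x : X} (h : x ≤ v x) (n : ℕ) : x ≤ v^[n] x := by
  induction n with
  | zero => exact le_rfl
  | succ n ih => rw [iterate_succ_apply']; exact h.trans (hv ih)

theorem iter_le {v : X → X} (hv : Monotone v) {x : X} (h : v x ≤ x) (n : ℕ) : v^[n] x ≤ x := by
  induction n with
  | zero => exact le_rfl
  | succ n ih => rw [iterate_succ_apply']; exact (hv ih).trans h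

theorem fix_iter_of_le {N : ℕ} {v : X → X} (hv : Monotone v) (hi : Idem (N + 1) v) {x : X}
    (h : x ≤ v x) : v (v^[N + 1] x) = v^[N + 1] x := by
  have h1 : v^[N + 1] x ≤ v (v^[N + 1] x) := by
    rw [← iterate_succ_apply' v (N + 1), iterate_succ_apply v (N + 1)]
    exact hv.iterate _ h
  refine le_antisymm ?_ h1
  have := le_iter hv (hv h1) N
  rw [← iterate_succ_apply v N] at this
  rwa [hi x] at this

theorem fix_iter_of_ge {N : ℕ} {v : X → X} (hv : Monotone v) (hi : Idem (N + 1) v) {x : X}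
    (h : v x ≤ x) : v (v^[N + 1] x) = v^[N + 1] x := by
  have h1 : v (v^[N + 1] x) ≤ v^[N + 1] x := by
    rw [← iterate_succ_apply' v (N + 1), iterate_succ_apply v (N + 1)]
    exact hv.iterate _ h
  refine le_antisymm h1 ?_
  have := iter_le hv (hv h1) N
  rw [← iterate_succ_apply v N] at this
  rwa [hi x] at this

/-- homotopy of monotone maps -/
def Htp (u v : X → Y) : Prop := Conn {w : X → Y | Monotone w} u v

/-- null-homotopic -/
def Null (u : X → Y) : Prop := ∃ c, Htp u (fun _ => c)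

/-- eventually null-homotopic -/
def EvNull (u : X → X) : Prop := ∃ n, Null u^[n]

theorem Htp.comp_left {u v : X → Y} (h : Htp u v) {w : Y → Z} (hw : Monotone w) :
    Htp (w ∘ u) (w ∘ v) :=
  Conn.map (fun t : X → Y => w ∘ t) (fun _ _ _ _ hh => Pi.le_def.mpr (fun x => hw (Pi.le_def.mp hh x)))
    (fun _ ht => hw.comp ht) h

theorem Htp.comp_right {u v : Y → Z} (h : Htp u v) {w : X → Y} (hw : Monotone w) :
    Htp (u ∘ w) (v ∘ w) :=
  Conn.map (fun t : Y → Z => t ∘ w) (fun _ _ _ _ hh => Pi.le_def.mpr (fun x => Pi.le_def.mp hh (w x)))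
    (fun _ ht => Monotone.comp ht hw) h

theorem iter_mono {u v : X → X} (hu : Monotone u) (h : u ≤ v) (n : ℕ) : u^[n] ≤ v^[n] :=
  hu.iterate_le_of_le h n

theorem isConn_fix_of_le [Finite X] {u v : X → X} (hu : Monotone u) (hv : Monotone v) (h : u ≤ v)
    (hc : IsConn {x | u x = x}) : IsConn {x | v x = x} := by
  obtain ⟨N, hN⟩ := exists_idem X
  have key : ∀ x, u x = x → v (v^[N + 1] x) = v^[N + 1] x := fun x hx =>
    fix_iter_of_le hv (hN v) (by have := h x; rwa [hx] at this)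
  obtain ⟨⟨x0, hx0⟩, hc2⟩ := hc
  have k2 : ∀ y, v y = y → Conn {x | v x = x} y (v^[N + 1] x0) := by
    intro y hy
    obtain ⟨x, -, hxy, hx⟩ := exists_fix_le (Set.toFinite (univ : Set X)) (hu.monotoneOn _)
      (mapsTo_univ _ _) (mem_univ y) (by have := h y; rwa [hy] at this)
    have h1 : v^[N + 1] x ≤ y := by
      have := hv.iterate (N + 1) hxy
      rwa [iterate_fixed hy] at this
    exact (Conn.of_ge (S := {x | v x = x}) hy (key x hx) h1).trans
      (Conn.map v^[N + 1] ((hv.iterate _).monotoneOn _) (fun z hz => key z hz) (hc2 x hx x0 hx0))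
  exact ⟨⟨_, key x0 hx0⟩, fun x hx y hy => (k2 x hx).trans (k2 y hy).symm⟩

theorem isConn_fix_of_ge [Finite X] {u v : X → X} (hu : Monotone u) (hv : Monotone v) (h : v ≤ u)
    (hc : IsConn {x | u x = x}) : IsConn {x | v x = x} := by
  obtain ⟨N, hN⟩ := exists_idem X
  have key : ∀ x, u x = x → v (v^[N + 1] x) = v^[N + 1] x := fun x hx =>
    fix_iter_of_ge hv (hN v) (by have := h x; rwa [hx] at this)
  obtain ⟨⟨x0, hx0⟩, hc2⟩ := hc
  have k2 : ∀ y, v y = y → Conn {x | v x = x} y (v^[N + 1] x0) := by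
    intro y hy
    obtain ⟨x, -, hxy, hx⟩ := exists_fix_ge (Set.toFinite (univ : Set X)) (hu.monotoneOn _)
      (mapsTo_univ _ _) (mem_univ y) (by have := h y; rwa [hy] at this)
    have h1 : y ≤ v^[N + 1] x := by
      have := hv.iterate (N + 1) hxy
      rwa [iterate_fixed hy] at this
    exact (Conn.of_le (S := {x | v x = x}) hy (key x hx) h1).trans
      (Conn.map v^[N + 1] ((hv.iterate _).monotoneOn _) (fun z hz => key z hz) (hc2 x hx x0 hx0))
  exact ⟨⟨_, key x0 hx0⟩, fun x hx y hy => (k2 x hx).trans (k2 y hy).symm⟩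

theorem Htp.isConn_fix [Finite X] {u v : X → X} (h : Htp u v) (hc : IsConn {x | u x = x}) :
    IsConn {x | v x = x} := by
  induction h with
  | refl => exact hc
  | tail _ hs ih =>
    obtain ⟨h1, h2, h3 | h3⟩ := hs
    · exact isConn_fix_of_le h1 h2 h3 ih
    · exact isConn_fix_of_ge h1 h2 h3 ih

theorem Htp.Lf_eq [Fintype X] {u v : X → X} (h : Htp u v) : Lf (push u) = Lf (push v) := by
  induction h with
  | refl => rfl
  | tail _ hs ih =>
    obtain ⟨h1, h2, h3 | h3⟩ := hs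
    · exact ih.trans (Lf_of_le h1 h2 h3)
    · exact ih.trans (Lf_of_le h2 h1 h3).symm

theorem EvNull.exists [Finite X] {u : X → X} (hu : Monotone u) (h : EvNull u) :
    ∃ v : X → X, Monotone v ∧ Null v ∧ ∀ x, v x = x ↔ u x = x := by
  obtain ⟨n, c, hc⟩ := h
  obtain ⟨N, hN⟩ := exists_idem X
  have hi := (hN u).mul' n
  obtain ⟨M, hM⟩ : ∃ M, (N + 1) * (n + 1) = M + 1 := ⟨N * n + N + n, by ring⟩
  obtain ⟨d, hd⟩ : ∃ d, M + 1 + 1 = d + n := ⟨N * n + N + 2, by
    have : M = N * n + N + n := by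
      have : (N + 1) * (n + 1) = N * n + N + n + 1 := by ring
      omega
    omega⟩
  rw [hM] at hi
  refine ⟨u^[M + 1 + 1], hu.iterate _, ⟨u^[d] c, ?_⟩, hi.fix_iff⟩
  rw [hd, iterate_add]
  exact hc.comp_left (hu.iterate d)

theorem EvNull.isConn [Finite X] {u : X → X} (hu : Monotone u) (h : EvNull u) :
    IsConn {x | u x = x} := by
  obtain ⟨v, -, ⟨c, hc⟩, e⟩ := h.exists hu
  have : {x | u x = x} = {x | v x = x} := by ext x; exact (e x).symm
  rw [this]
  refine Htp.isConn_fix (Conn.symm hc) ⟨⟨c, rfl⟩, fun x hx y hy => ?_⟩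
  have hx' : c = x := hx
  have hy' : c = y := hy
  rw [← hx', ← hy']
  exact Conn.rfl'

theorem EvNull.Lf_zero [Fintype X] {u : X → X} (hu : Monotone u) (h : EvNull u) :
    Lf (push u) = 0 := by
  obtain ⟨v, hv, ⟨c, hc⟩, e⟩ := h.exists hu
  rw [← Lf_push_congr hv hu e, hc.Lf_eq, Lf_const]

/-! Homotopies on subsets. -/

/-- homotopy of self-maps of a subset -/
def HtpOn (S : Set X) (u v : X → X) : Prop := ReflTransGen (StepOn S) u v

/-- null-homotopic on a subset -/
def NullOn (S : Set X) (u : X → X) : Prop := ∃ c, HtpOn S u (fun _ => c)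

theorem StepOn.symm {S : Set X} {u v : X → X} (h : StepOn S u v) : StepOn S v u :=
  ⟨h.2.2.1, h.2.2.2.1, h.1, h.2.1, h.2.2.2.2.symm⟩

theorem HtpOn.symm {S : Set X} {u v : X → X} (h : HtpOn S u v) : HtpOn S v u := by
  induction h with
  | refl => exact ReflTransGen.refl
  | tail _ hs ih => exact ReflTransGen.head hs.symm ih

theorem HtpOn.trans {S : Set X} {u v w : X → X} (h : HtpOn S u v) (h' : HtpOn S v w) :
    HtpOn S u w := ReflTransGen.trans h h'

theorem htpOn_of_family {S : Set Y} {T : Set X} (u : Y → X → X)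
    (hm : ∀ c ∈ S, ∀ c' ∈ S, ∀ x ∈ T, ∀ x' ∈ T, c ≤ c' → x ≤ x' → u c x ≤ u c' x')
    (hmap : ∀ c ∈ S, ∀ x ∈ T, u c x ∈ T) {c c' : Y} (h : Conn S c c') :
    HtpOn T (u c) (u c') := by
  induction h with
  | refl => exact ReflTransGen.refl
  | @tail a b _ hs ih =>
    obtain ⟨ha, hb, hab⟩ := hs
    refine ReflTransGen.tail ih ⟨fun p hp q hq hpq => hm a ha a ha p hp q hq le_rfl hpq,
      fun p hp => hmap a ha p hp, fun p hp q hq hpq => hm b hb b hb p hp q hq le_rfl hpq,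
      fun p hp => hmap b hb p hp, ?_⟩
    rcases hab with hab | hab
    · exact Or.inl (fun x hx => hm a ha b hb x hx x hx hab le_rfl)
    · exact Or.inr (fun x hx => hm b hb a ha x hx x hx hab le_rfl)

theorem htpOn_of_seq {T : Set X} (u : ℕ → X → X) (h : ∀ s, StepOn T (u s) (u (s + 1))) (n : ℕ) :
    HtpOn T (u 0) (u n) := by
  induction n with
  | zero => exact ReflTransGen.refl
  | succ n ih => exact ReflTransGen.tail ih (h n)

theorem htpOn_of_eq {T : Set X} {u v : X → X} (hu : MonotoneOn u T) (hm : MapsTo u T T)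
    (e : ∀ x ∈ T, u x = v x) : HtpOn T u v :=
  ReflTransGen.single ⟨hu, hm, fun p hp q hq hpq => by rw [← e p hp, ← e q hq]; exact hu hp hq hpq,
    fun p hp => by rw [← e p hp]; exact hm hp, Or.inl (fun x hx => (e x hx).le)⟩

theorem HtpOn.conn {T : Set X} {u v : X → X} (h : HtpOn T u v) {x : X} (hx : x ∈ T) :
    Conn T (u x) (v x) := by
  induction h with
  | refl => exact Conn.rfl'
  | tail _ hs ih =>
    obtain ⟨-, h2, -, h4, h5 | h5⟩ := hs
    · exact ih.trans (Conn.of_le (h2 hx) (h4 hx) (h5 x hx))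
    · exact ih.trans (Conn.of_ge (h2 hx) (h4 hx) (h5 x hx))

theorem HtpOn.restrict {T : Set X} {u v : X → X} (h : HtpOn T u v) (hu : MapsTo u T T)
    (hv : MapsTo v T T) : Htp (hu.restrict u T T) (hv.restrict v T T) := by
  induction h with
  | refl => exact Conn.rfl'
  | tail _ hs ih =>
    obtain ⟨h1, h2, h3, h4, h5⟩ := hs
    refine (ih h2).trans (ReflTransGen.single ⟨fun a b hab => h1 a.2 b.2 hab,
      fun a b hab => h3 a.2 b.2 hab, ?_⟩)
    rcases h5 with h5 | h5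
    · exact Or.inl (fun x => h5 x.1 x.2)
    · exact Or.inr (fun x => h5 x.1 x.2)

theorem HtpOn.mapsTo {T : Set X} {u v : X → X} (h : HtpOn T u v) (hu : MapsTo u T T) :
    MapsTo v T T := by
  induction h with
  | refl => exact hu
  | tail _ hs _ => exact hs.2.2.2.1

theorem NullOn.restrict {T : Set X} {u : X → X} (h : NullOn T u) (hu : MapsTo u T T)
    (hne : T.Nonempty) : Null (hu.restrict u T T) := by
  obtain ⟨c, hc⟩ := h
  obtain ⟨x, hx⟩ := hne
  have hv := hc.mapsTo hu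
  exact ⟨⟨c, hv hx⟩, hc.restrict hu hv⟩

theorem HtpOn.comp {T : Set X} {u v : X → X} (h : HtpOn T u v) {y : X}
    (hu : MapsTo u (Comp T y) (Comp T y)) : HtpOn (Comp T y) u v := by
  induction h with
  | refl => exact ReflTransGen.refl
  | tail _ hs ih =>
    obtain ⟨h1, h2, h3, h4, h5⟩ := hs
    have hsub : Comp T y ⊆ T := fun _ hz => hz.1
    have hm := ih.mapsTo hu
    refine ReflTransGen.tail ih ⟨h1.mono hsub, hm, h3.mono hsub, fun z hz => ⟨h4 hz.1, ?_⟩, ?_⟩
    · rcases h5 with h5 | h5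
      · exact (Conn.of_ge (h4 hz.1) (h2 hz.1) (h5 z hz.1)).trans (hm hz).2
      · exact (Conn.of_le (h4 hz.1) (h2 hz.1) (h5 z hz.1)).trans (hm hz).2
    · rcases h5 with h5 | h5
      · exact Or.inl (fun x hx => h5 x hx.1)
      · exact Or.inr (fun x hx => h5 x hx.1)

end Pool.Agent.Lib.MP_6152be_co
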