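import Mathlib
import Pool.Agent.Lib.MP_6152be_co.Htp

set_option autoImplicit false

/-! A fixed point theorem for products, by a mod 2 Lefschetz number argument. -/

namespace Pool.Agent.Lib.MP_6152be_co

open Relation Set Function

/-- monotone in both arguments -/
def M2 {X Y Z : Type*} [PartialOrder X] [PartialOrder Y] [PartialOrder Z] (g : X → Y → Z) : Prop :=
  ∀ a a' b b', a ≤ a' → b ≤ b' → g a b ≤ g a' b'

/-- fixed points of the self-map of a product with components `g` and `h` -/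
def Fx {A B : Type*} (g : A → B → A) (h : A → B → B) : Set (A × B) :=
  {z | g z.1 z.2 = z.1 ∧ h z.1 z.2 = z.2}

variable {A B : Type*} [PartialOrder A] [PartialOrder B]

theorem M2.left {Z : Type*} [PartialOrder Z] {g : A → B → Z} (hg : M2 g) (b : B) :
    Monotone (fun a => g a b) := fun _ _ h => hg _ _ _ _ h le_rfl

theorem M2.right {Z : Type*} [PartialOrder Z] {g : A → B → Z} (hg : M2 g) (a : A) :
    Monotone (g a) := fun _ _ h => hg _ _ _ _ le_rfl h

theorem L0 [Finite A] [Finite B] (g : A → B → A) (h : A → B → B) (e : A → B → A)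
    (hg : M2 g) (hh : M2 h) (he : M2 e) (hidem : ∀ a b, e (e a b) b = e a b)
    (hge : ∀ a b, g (e a b) b = g a b) (hhe : ∀ a b, h (e a b) b = h a b)
    (hnull : ∀ b, Null (fun a => e a b)) (a0 : A) (hev : EvNull (h a0)) :
    (Fx g h).Nonempty := by
  have := Fintype.ofFinite A
  have := Fintype.ofFinite B
  by_contra hno
  let f : A × B → A × B := fun z => (g z.1 z.2, h z.1 z.2)
  have hf : Monotone f := fun z z' hz => ⟨hg _ _ _ _ hz.1 hz.2, hh _ _ _ _ hz.1 hz.2⟩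
  have h1 : Lf (push f) = 1 := Lf_no_fix hf (fun z hz =>
    hno ⟨z, congrArg Prod.fst hz, congrArg Prod.snd hz⟩)
  let E : A × B → A × B := fun z => (e z.1 z.2, z.2)
  let S : A × B → A × B := fun z => (e a0 z.2, z.2)
  have hE : Monotone E := fun z z' hz => ⟨he _ _ _ _ hz.1 hz.2, hz.2⟩
  have hS : Monotone S := fun z z' hz => ⟨he _ _ _ _ le_rfl hz.2, hz.2⟩
  let Γ : Finset (A × B) → Set (A × B) := fun σ => {z | e z.1 z.2 = z.1 ∧ ∃ x ∈ σ, z.2 ≤ x.2}
  obtain ⟨H, hH⟩ := carrier (S := (univ : Set (A × B))) E S Γ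
    (fun σ τ _ hτ z hz => by
      obtain ⟨h1, x, hx, h2⟩ := hz
      exact ⟨h1, x, hτ hx, h2⟩)
    (fun σ hσ => push_mem (S := (σ : Set (A × B))) (T := Γ σ) (hE.monotoneOn _)
      (fun x hx => ⟨hidem _ _, x, hx, le_rfl⟩) (sg_mem ⟨hσ.1, subset_rfl⟩))
    (fun σ hσ => push_mem (S := (σ : Set (A × B))) (T := Γ σ) (hS.monotoneOn _)
      (fun x hx => ⟨hidem _ _, x, hx, le_rfl⟩) (sg_mem ⟨hσ.1, subset_rfl⟩))
    (fun σ hσ hne => by
      obtain ⟨m, hm, hmax⟩ := exists_max hσ hne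
      obtain ⟨c, hc⟩ := hnull m.2
      have s2 := htpOn_of_family (S := {w : A → A | Monotone w}) (T := Γ σ)
        (fun w z => (e (w z.1) m.2, m.2))
        (fun w _ w' hw' x _ x' _ hww hxx =>
          Prod.mk_le_mk.mpr
            ⟨he _ _ _ _ ((Pi.le_def.mp hww x.1).trans (hw' hxx.1)) le_rfl, le_rfl⟩)
        (fun w _ x _ => ⟨hidem _ _, m, hm, le_rfl⟩) hc
      refine ac_of_htp (c := (e c m.2, m.2)) ⟨hidem _ _, m, hm, le_rfl⟩
        (ReflTransGen.head ?_ s2)
      refine ⟨monotoneOn_id, mapsTo_id _, fun x _ x' _ hxx =>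
        ⟨he _ _ _ _ (he _ _ _ _ hxx.1 le_rfl) le_rfl, le_rfl⟩,
        fun x _ => ⟨hidem _ _, m, hm, le_rfl⟩, Or.inl ?_⟩
      rintro z ⟨hz, x, hx, hzx⟩
      have hb : z.2 ≤ m.2 := hzx.trans (hmax x hx).2
      refine ⟨?_, hb⟩
      show z.1 ≤ e (e z.1 m.2) m.2
      rw [hidem]
      exact hz.symm.le.trans (he _ _ _ _ le_rfl hb))
  have h2 := Lf_htp f hf H (fun σ hσ => ⟨C_mono (subset_univ _) (hH σ hσ).1, (hH σ hσ).2⟩)
  have e1 : f ∘ E = f := by
    funext z
    exact Prod.ext (hge _ _) (hhe _ _)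
  have hα : Monotone (fun b : B => f (e a0 b, b)) := fun b b' hb =>
    hf ⟨he _ _ _ _ le_rfl hb, hb⟩
  have h3 := Lf_push_comm (u := (Prod.snd : A × B → B)) (v := fun b : B => f (e a0 b, b))
    monotone_snd hα
  have e2 : (Prod.snd : A × B → B) ∘ (fun b : B => f (e a0 b, b)) = h a0 := by
    funext b
    exact hhe _ _
  rw [e2, hev.Lf_zero (hh.right a0)] at h3
  have e3 : f ∘ S = (fun b : B => f (e a0 b, b)) ∘ (Prod.snd : A × B → B) := rfl
  rw [e1, e3, h3, h1] at h2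
  exact absurd h2 (by decide)

end Pool.Agent.Lib.MP_6152be_co
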