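import Mathlib
import Pool.Agent.Lib.MP_6152be_co.L0

set_option autoImplicit false

/-! Spaces of zigzags of fixed length. -/

namespace Pool.Agent.Lib.MP_6152be_co

open Relation Set Function

variable {X Y Z : Type*} [PartialOrder X] [PartialOrder Y] [PartialOrder Z]

/-- up at even times, down at odd times -/
def Step (i : ℕ) (x y : X) : Prop := (i % 2 = 0 → x ≤ y) ∧ (i % 2 = 1 → y ≤ x)

theorem Step.rfl' (i : ℕ) (x : X) : Step i x x := ⟨fun _ => le_rfl, fun _ => le_rfl⟩

theorem Step.map2 {g : X → Y → Z} (hg : M2 g) {i : ℕ} {x x' : X} {y y' : Y} (h : Step i x x')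
    (h' : Step i y y') : Step i (g x y) (g x' y') :=
  ⟨fun hi => hg _ _ _ _ (h.1 hi) (h'.1 hi), fun hi => hg _ _ _ _ (h.2 hi) (h'.2 hi)⟩

theorem Step.map {φ : X → Y} (hφ : Monotone φ) {i : ℕ} {x x' : X} (h : Step i x x') :
    Step i (φ x) (φ x') := ⟨fun hi => hφ (h.1 hi), fun hi => hφ (h.2 hi)⟩

theorem Step.app {i : ℕ} {u v : X → Y} (hv : Monotone v) (hu : Monotone u) (h : Step i u v)
    {x x' : X} (h' : Step i x x') : Step i (u x) (v x') :=
  ⟨fun hi => (Pi.le_def.mp (h.1 hi) x).trans (hv (h'.1 hi)),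
    fun hi => (Pi.le_def.mp (h.2 hi) x').trans (hu (h'.2 hi))⟩

theorem Step.or {i : ℕ} {x y : X} (h : Step i x y) : x ≤ y ∨ y ≤ x := by
  rcases Nat.mod_two_eq_zero_or_one i with hi | hi
  · exact Or.inl (h.1 hi)
  · exact Or.inr (h.2 hi)

/-- zigzags -/
def Zig (γ : ℕ → X) : Prop := ∀ i, Step i (γ i) (γ (i + 1))

theorem Zig.step {γ : ℕ → X} (h : Zig γ) {i a b : ℕ}
    (hab : a = b ∨ (b = a + 1 ∧ a % 2 = i % 2) ∨ (a = b + 1 ∧ b % 2 ≠ i % 2)) :
    Step i (γ a) (γ b) := by
  rcases hab with rfl | ⟨rfl, h1⟩ | ⟨rfl, h1⟩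
  · exact Step.rfl' _ _
  · exact ⟨fun hi => (h a).1 (by omega), fun hi => (h a).2 (by omega)⟩
  · exact ⟨fun hi => (h b).2 (by omega), fun hi => (h b).1 (by omega)⟩

/-- zigzags from `x` to `y` of length `l` -/
def Pth (l : ℕ) (x y : X) : Set (ℕ → X) := {γ | Zig γ ∧ γ 0 = x ∧ ∀ i, l ≤ i → γ i = y}

theorem Pth.finite [Finite X] (l : ℕ) (x y : X) : (Pth l x y).Finite := by
  refine Set.Finite.of_finite_image (f := fun γ (i : Fin l) => γ i) (Set.toFinite _) ?_
  intro γ hγ δ hδ e
  funext i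
  by_cases hi : i < l
  · exact congrFun e ⟨i, hi⟩
  · rw [hγ.2.2 i (by omega), hδ.2.2 i (by omega)]

theorem Pth.mono_len {l l' : ℕ} (h : l ≤ l') {x y : X} {γ : ℕ → X} (hγ : γ ∈ Pth l x y) :
    γ ∈ Pth l' x y := ⟨hγ.1, hγ.2.1, fun i hi => hγ.2.2 i (h.trans hi)⟩

theorem Pth.map2 {g : X → Y → Z} (hg : M2 g) {l : ℕ} {x x' : X} {y y' : Y} {γ : ℕ → X}
    {δ : ℕ → Y} (hγ : γ ∈ Pth l x x') (hδ : δ ∈ Pth l y y') :
    (fun i => g (γ i) (δ i)) ∈ Pth l (g x y) (g x' y') :=
  ⟨fun i => (hγ.1 i).map2 hg (hδ.1 i), by simp only [hγ.2.1, hδ.2.1],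
    fun i hi => by simp only [hγ.2.2 i hi, hδ.2.2 i hi]⟩

theorem Pth.map {φ : X → Y} (hφ : Monotone φ) {l : ℕ} {x x' : X} {γ : ℕ → X}
    (hγ : γ ∈ Pth l x x') : (fun i => φ (γ i)) ∈ Pth l (φ x) (φ x') :=
  ⟨fun i => (hγ.1 i).map hφ, by simp only [hγ.2.1], fun i hi => by simp only [hγ.2.2 i hi]⟩

theorem Conn.exists_pth {S : Set X} {x y : X} (h : Conn S x y) (hx : x ∈ S) :
    ∃ l, l % 2 = 0 ∧ ∃ γ ∈ Pth l x y, ∀ i, γ i ∈ S := by
  induction h with
  | refl => exact ⟨0, rfl, fun _ => x, ⟨fun i => Step.rfl' _ _, rfl, fun _ _ => rfl⟩, fun _ => hx⟩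
  | @tail a b _ hs ih =>
    obtain ⟨l, hl, γ, hγ, hS⟩ := ih
    obtain ⟨-, hb, hab | hab⟩ := hs
    · refine ⟨l + 2, by omega, fun i => if i ≤ l then γ i else b, ⟨fun i => ?_, ?_, ?_⟩, ?_⟩
      · by_cases h1 : i + 1 ≤ l
        · simp only [if_pos h1, if_pos (show i ≤ l by omega)]
          exact hγ.1 i
        · by_cases h2 : i ≤ l
          · simp only [if_neg h1, if_pos h2]
            rw [hγ.2.2 i (by omega)]
            exact ⟨fun _ => hab, fun _ => by omega⟩
          · simp only [if_neg h1, if_neg h2]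
            exact Step.rfl' _ _
      · simp only [Nat.zero_le, if_true]
        exact hγ.2.1
      · intro i hi
        simp only [if_neg (show ¬ i ≤ l by omega)]
      · intro i
        by_cases h2 : i ≤ l
        · simp only [if_pos h2]; exact hS i
        · simp only [if_neg h2]; exact hb
    · refine ⟨l + 2, by omega, fun i => if i ≤ l + 1 then γ i else b, ⟨fun i => ?_, ?_, ?_⟩, ?_⟩
      · by_cases h1 : i + 1 ≤ l + 1
        · simp only [if_pos h1, if_pos (show i ≤ l + 1 by omega)]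
          exact hγ.1 i
        · by_cases h2 : i ≤ l + 1
          · simp only [if_neg h1, if_pos h2]
            rw [hγ.2.2 i (by omega)]
            exact ⟨fun _ => by omega, fun _ => hab⟩
          · simp only [if_neg h1, if_neg h2]
            exact Step.rfl' _ _
      · simp only [Nat.zero_le, if_true]
        exact hγ.2.1
      · intro i hi
        simp only [if_neg (show ¬ i ≤ l + 1 by omega)]
      · intro i
        by_cases h2 : i ≤ l + 1
        · simp only [if_pos h2]; exact hS i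
        · simp only [if_neg h2]; exact hb

theorem Zig.conn {S : Set X} {γ : ℕ → X} (h : Zig γ) (hS : ∀ i, γ i ∈ S) (n : ℕ) :
    Conn S (γ 0) (γ n) := by
  induction n with
  | zero => exact Conn.rfl'
  | succ n ih => exact ReflTransGen.tail ih ⟨hS _, hS _, (h n).or⟩

theorem stepOn_of_step {S : Set (ℕ → X)} {T T' : (ℕ → X) → ℕ → X} (h1 : Monotone T)
    (h2 : MapsTo T S S) (h3 : Monotone T') (h4 : MapsTo T' S S) (s : ℕ)
    (h : ∀ γ ∈ S, ∀ i, Step s (T γ i) (T' γ i)) : StepOn S T T' := by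
  refine ⟨h1.monotoneOn _, h2, h3.monotoneOn _, h4, ?_⟩
  rcases Nat.mod_two_eq_zero_or_one s with hs | hs
  · exact Or.inl (fun γ hγ => Pi.le_def.mpr (fun i => (h γ hγ i).1 hs))
  · exact Or.inr (fun γ hγ => Pi.le_def.mpr (fun i => (h γ hγ i).2 hs))

/-- a zigzag of maps that is constant at two consecutive times acts null-homotopically -/
theorem window2 (K : ℕ → X → X) (hm : ∀ i, Monotone (K i)) (hz : Zig K) (l m : ℕ) (x y c : X)
    (hx : K 0 x = x) (hy : ∀ i, l ≤ i → K i y = y) (hml : m < l) (h1 : K m = fun _ => c)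
    (h2 : K (m + 1) = fun _ => c) : NullOn (Pth l x y) (fun γ i => K i (γ i)) := by
  let r : ℕ → ℕ → ℕ → ℕ := fun s t i => if i ≤ m then min i s else max i t
  let R : ℕ → ℕ → (ℕ → X) → ℕ → X := fun s t γ i => K i (γ (r s t i))
  have hR : ∀ s t, Monotone (R s t) := fun s t γ δ h =>
    Pi.le_def.mpr (fun i => hm i (Pi.le_def.mp h _))
  have hmap : ∀ s t, MapsTo (R s t) (Pth l x y) (Pth l x y) := by
    intro s t γ hγ
    refine ⟨fun i => ?_, ?_, fun i hi => ?_⟩
    · by_cases hi : i = m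
      · subst hi
        simp only [R, h1, h2]
        exact Step.rfl' _ _
      · refine Step.app (hm _) (hm _) (hz i) (hγ.1.step ?_)
        simp only [r]
        split_ifs <;> omega
    · have : r s t 0 = 0 := by simp [r]
      simp only [R, this, hγ.2.1, hx]
    · have : l ≤ r s t i := by
        simp only [r]
        split_ifs <;> omega
      simp only [R, hγ.2.2 _ this, hy i hi]
  have s1 : HtpOn (Pth l x y) (R 0 0) (R m 0) := by
    refine htpOn_of_seq (fun s => R s 0) (fun s => ?_) m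
    refine stepOn_of_step (hR _ _) (hmap _ _) (hR _ _) (hmap _ _) s (fun γ hγ i => ?_)
    refine Step.map (hm i) (hγ.1.step ?_)
    simp only [r]
    split_ifs <;> omega
  have s2 : HtpOn (Pth l x y) (R 0 0) (R 0 l) := by
    refine htpOn_of_seq (fun t => R 0 t) (fun t => ?_) l
    refine stepOn_of_step (hR _ _) (hmap _ _) (hR _ _) (hmap _ _) t (fun γ hγ i => ?_)
    refine Step.map (hm i) (hγ.1.step ?_)
    simp only [r]
    split_ifs <;> omega
  have e1 : R m 0 = fun γ i => K i (γ i) := by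
    funext γ i
    have : r m 0 i = i := by
      simp only [r]
      split_ifs <;> omega
    simp only [R, this]
  rw [e1] at s1
  refine ⟨fun i => K i (if i ≤ m then x else y), s1.symm.trans (s2.trans ?_)⟩
  refine htpOn_of_eq ((hR _ _).monotoneOn _) (hmap _ _) (fun γ hγ => ?_)
  funext i
  simp only [R, r]
  split_ifs with h
  · rw [Nat.min_zero, hγ.2.1]
  · rw [hγ.2.2 _ (le_max_right _ _)]

/-- a zigzag of maps with a null-homotopic tail acts null-homotopically on long zigzags -/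
theorem window (V : ℕ → X → X) (hm : ∀ i, Monotone (V i)) (hz : Zig V) (l0 : ℕ)
    (hl0 : l0 % 2 = 0) (W : X → X) (hW : ∀ i, l0 ≤ i → V i = W) (hn : Null W) (x y : X)
    (hx : V 0 x = x) (hy : W y = y) :
    ∃ L, ∀ l, L ≤ l → l % 2 = 0 → NullOn (Pth l x y) (fun γ i => V i (γ i)) := by
  obtain ⟨c, hc⟩ := hn
  have hWm : Monotone W := by rw [← hW l0 le_rfl]; exact hm _
  obtain ⟨k, -, u, hu, hum⟩ := Conn.exists_pth hc hWm
  refine ⟨l0 + 2 * k + 2, fun l hl hle => ?_⟩
  let K : ℕ → ℕ → X → X := fun t i => if i < l0 then V i else u (min (min (i - l0) (l - i)) t)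
  have hK : ∀ t i, Monotone (K t i) := by
    intro t i
    simp only [K]
    split_ifs
    · exact hm i
    · exact hum _
  have hKz : ∀ t, Zig (K t) := by
    intro t i
    simp only [K]
    by_cases h1 : i + 1 < l0
    · rw [if_pos h1, if_pos (by omega)]
      exact hz i
    · by_cases h2 : i < l0
      · rw [if_pos h2, if_neg h1]
        have : min (min (i + 1 - l0) (l - (i + 1))) t = 0 := by omega
        rw [this, hu.2.1, ← hW (i + 1) (by omega)]
        exact hz i
      · rw [if_neg h1, if_neg h2]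
        exact hu.1.step (by omega)
  have hK0 : ∀ t, K t 0 x = x := by
    intro t
    simp only [K]
    split_ifs with h
    · exact hx
    · have : min (min (0 - l0) (l - 0)) t = 0 := by omega
      rw [this, hu.2.1, ← hW 0 (by omega)]
      exact hx
  have hKl : ∀ t i, l ≤ i → K t i y = y := by
    intro t i hi
    simp only [K]
    rw [if_neg (by omega)]
    have : min (min (i - l0) (l - i)) t = 0 := by omega
    rw [this, hu.2.1]
    exact hy
  have hR : ∀ t, Monotone (fun (γ : ℕ → X) i => K t i (γ i)) := fun t γ δ h =>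
    Pi.le_def.mpr (fun i => hK t i (Pi.le_def.mp h _))
  have hmap : ∀ t, MapsTo (fun (γ : ℕ → X) i => K t i (γ i)) (Pth l x y) (Pth l x y) := by
    intro t γ hγ
    refine ⟨fun i => Step.app (hK _ _) (hK _ _) (hKz t i) (hγ.1 i), ?_, fun i hi => ?_⟩
    · simp only [hγ.2.1, hK0]
    · simp only [hγ.2.2 i hi, hKl t i hi]
  have s1 := htpOn_of_seq (T := Pth l x y) (fun t (γ : ℕ → X) i => K t i (γ i)) (fun t => by
    refine stepOn_of_step (hR _) (hmap _) (hR _) (hmap _) t (fun γ _ i => ?_)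
    simp only [K]
    split_ifs
    · exact Step.rfl' _ _
    · exact Step.app (hum _) (hum _) (hu.1.step (by omega)) (Step.rfl' _ _)) k
  have e0 : K 0 = V := by
    funext i
    simp only [K]
    split_ifs with h
    · rfl
    · rw [Nat.min_zero, hu.2.1, hW i (by omega)]
  obtain ⟨c', hc'⟩ := window2 (K k) (hK k) (hKz k) l (l0 + k) x y c (hK0 k) (hKl k) (by omega)
    (by
      simp only [K]
      rw [if_neg (by omega)]
      exact hu.2.2 _ (by omega))
    (by
      simp only [K]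
      rw [if_neg (by omega)]
      exact hu.2.2 _ (by omega))
  rw [e0] at s1
  exact ⟨c', s1.trans hc'⟩

end Pool.Agent.Lib.MP_6152be_co
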