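import Mathlib
import Pool.Agent.Lib.MP_6152be_co.Path

set_option autoImplicit false

/-! Connectedness of the fixed point set when both slots are null-homotopic. -/

namespace Pool.Agent.Lib.MP_6152be_co

open Relation Set Function

variable {A B : Type*} [PartialOrder A] [PartialOrder B]

theorem total_conn [Finite B] (h : A → B → B) (hh : M2 h) (hA : IsConn (univ : Set A))
    (hF : ∀ a, IsConn {b | h a b = b}) {z z' : A × B} (hz : h z.1 z.2 = z.2)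
    (hz' : h z'.1 z'.2 = z'.2) : Conn {w : A × B | h w.1 w.2 = w.2} z z' := by
  obtain ⟨x, -, hx, hc⟩ := follow (S := (univ : Set A)) (T := (univ : Set B)) (Set.toFinite _) h
    (fun _ _ _ _ _ _ _ _ h1 h2 => hh _ _ _ _ h1 h2) (fun _ _ _ _ => mem_univ _)
    (hA.2 z.1 (mem_univ _) z'.1 (mem_univ _)) (mem_univ z.2) hz
  have h1 : Conn {w : A × B | h w.1 w.2 = w.2} z (z'.1, x) :=
    hc.mono (fun w hw => hw.2.2)
  exact h1.trans (Conn.map (T := {w : A × B | h w.1 w.2 = w.2}) (fun b => (z'.1, b))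
    (fun _ _ _ _ hb => Prod.mk_le_mk.mpr ⟨le_rfl, hb⟩) (fun _ hb => hb)
    ((hF z'.1).2 x hx z'.2 hz'))

theorem iter_pointwise {α : Type*} (v : ℕ → α → α) (n : ℕ) :
    (fun (δ : ℕ → α) i => v i (δ i))^[n] = fun δ i => (v i)^[n] (δ i) := by
  induction n with
  | zero => rfl
  | succ n ih =>
    funext δ i
    rw [iterate_succ_apply, ih, iterate_succ_apply]

theorem nn [Finite A] [Finite B] (g : A → B → A) (h : A → B → B) (e : A → B → A)
    (hg : M2 g) (hh : M2 h) (he : M2 e) (hidem : ∀ a b, e (e a b) b = e a b)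
    (hge : ∀ a b, g (e a b) b = g a b) (hhe : ∀ a b, h (e a b) b = h a b)
    (hfix : ∀ a b, g a b = a → e a b = a)
    (hnull : ∀ b, Null (fun a => e a b)) (hev : ∀ a, EvNull (h a))
    (hA : IsConn (univ : Set A)) : IsConn (Fx g h) := by
  obtain ⟨a0, -⟩ := hA.1
  refine ⟨L0 g h e hg hh he hidem hge hhe hnull a0 (hev a0), fun z0 hz0 z1 hz1 => ?_⟩
  obtain ⟨l0, hl0, ζ, hζ, hζf⟩ := (total_conn h hh hA (fun a => (hev a).isConn (hh.right a))
    hz0.2 hz1.2).exists_pth hz0.2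
  have hγ0 : (fun i => (ζ i).1) ∈ Pth l0 z0.1 z1.1 := Pth.map monotone_fst hζ
  have hδs : (fun i => (ζ i).2) ∈ Pth l0 z0.2 z1.2 := Pth.map monotone_snd hζ
  generalize hγ : (fun i => (ζ i).1) = γ0 at hγ0
  generalize hδ : (fun i => (ζ i).2) = δs at hδs
  have hγδ : (fun i => h (γ0 i) (δs i)) = δs := by
    rw [← hγ, ← hδ]
    funext i
    exact hζf i
  have he0 := hfix _ _ hz0.1
  have he1 := hfix _ _ hz1.1
  have m1 : Monotone (fun (b : B) (a : A) => e a b) := fun b b' hb =>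
    Pi.le_def.mpr (fun a => he _ _ _ _ le_rfl hb)
  obtain ⟨L1, hL1⟩ := window (fun i a => e a (δs i)) (fun i => he.left _)
    (fun i => (hδs.1 i).map m1) l0 hl0 (fun a => e a z1.2)
    (fun i hi => by rw [hδs.2.2 i hi]) (hnull _) z0.1 z1.1 (by rw [hδs.2.1]; exact he0) he1
  obtain ⟨n, hn⟩ := hev z1.1
  have m2 : Monotone (fun (a : A) => (h a)^[n]) := fun a a' ha =>
    iter_mono (hh.right a) (Pi.le_def.mpr (fun b => hh _ _ _ _ ha le_rfl)) n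
  obtain ⟨L2, hL2⟩ := window (fun i => (h (γ0 i))^[n]) (fun i => (hh.right _).iterate n)
    (fun i => (hγ0.1 i).map m2) l0 hl0 (h z1.1)^[n]
    (fun i hi => by rw [hγ0.2.2 i hi]) hn z0.2 z1.2
    (by rw [hγ0.2.1]; exact iterate_fixed hz0.2 n) (iterate_fixed hz1.2 n)
  obtain ⟨l, hl⟩ : ∃ l, l = 2 * (l0 + L1 + L2) := ⟨_, rfl⟩
  have n1 := hL1 l (by omega) (by omega)
  have n2 := hL2 l (by omega) (by omega)
  replace hγ0 := Pth.mono_len (show l0 ≤ l by omega) hγ0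
  replace hδs := Pth.mono_len (show l0 ≤ l by omega) hδs
  generalize hPA : Pth l z0.1 z1.1 = PA at *
  generalize hPB : Pth l z0.2 z1.2 = PB at *
  have fA : PA.Finite := hPA ▸ Pth.finite _ _ _
  have fB : PB.Finite := hPB ▸ Pth.finite _ _ _
  have mg : ∀ γ ∈ PA, ∀ δ ∈ PB, (fun i => g (γ i) (δ i)) ∈ PA := by
    intro γ h1 δ h2
    have := Pth.map2 hg (hPA ▸ h1) (hPB ▸ h2)
    rwa [hz0.1, hz1.1, hPA] at this
  have mh : ∀ γ ∈ PA, ∀ δ ∈ PB, (fun i => h (γ i) (δ i)) ∈ PB := by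
    intro γ h1 δ h2
    have := Pth.map2 hh (hPA ▸ h1) (hPB ▸ h2)
    rwa [hz0.2, hz1.2, hPB] at this
  have me : ∀ γ ∈ PA, ∀ δ ∈ PB, (fun i => e (γ i) (δ i)) ∈ PA := by
    intro γ h1 δ h2
    have := Pth.map2 he (hPA ▸ h1) (hPB ▸ h2)
    rwa [he0, he1, hPA] at this
  have mK : ∀ γ ∈ PA, ∀ δ ∈ Comp PB δs, (fun i => h (γ i) (δ i)) ∈ Comp PB δs := by
    intro γ h1 δ h2
    refine ⟨mh γ h1 δ h2.1, ?_⟩
    have c1 : Conn PB (fun i => h (γ i) (δ i)) (fun i => h (γ i) (δs i)) :=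
      Conn.map (fun (δ : ℕ → B) i => h (γ i) (δ i))
        (fun _ _ _ _ hh' => Pi.le_def.mpr (fun i => hh _ _ _ _ le_rfl (Pi.le_def.mp hh' i)))
        (fun δ hδ => mh γ h1 δ hδ) h2.2
    obtain ⟨c, hc⟩ := n1
    have c2 := Conn.map (T := PB) (fun (γ : ℕ → A) i => h (γ i) (δs i))
        (fun _ _ _ _ hh' => Pi.le_def.mpr (fun i => hh _ _ _ _ (Pi.le_def.mp hh' i) le_rfl))
        (fun γ hγ => mh γ hγ δs hδs) ((hc.conn h1).trans (hc.conn hγ0).symm)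
    simp only [hhe] at c2
    rw [hγδ] at c2
    exact c1.trans c2
  have : Finite PA := fA
  have : Finite (Comp PB δs) := fB.subset (fun _ hz => hz.1)
  obtain ⟨⟨γ, δ⟩, h1, h2⟩ := L0 (A := PA) (B := Comp PB δs)
    (fun γ δ => ⟨fun i => g (γ.1 i) (δ.1 i), mg _ γ.2 _ δ.2.1⟩)
    (fun γ δ => ⟨fun i => h (γ.1 i) (δ.1 i), mK _ γ.2 _ δ.2⟩)
    (fun γ δ => ⟨fun i => e (γ.1 i) (δ.1 i), me _ γ.2 _ δ.2.1⟩)
    (fun _ _ _ _ h1 h2 => Pi.le_def.mpr (fun i => hg _ _ _ _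
      (Pi.le_def.mp (Subtype.coe_le_coe.mpr h1) i) (Pi.le_def.mp (Subtype.coe_le_coe.mpr h2) i)))
    (fun _ _ _ _ h1 h2 => Pi.le_def.mpr (fun i => hh _ _ _ _
      (Pi.le_def.mp (Subtype.coe_le_coe.mpr h1) i) (Pi.le_def.mp (Subtype.coe_le_coe.mpr h2) i)))
    (fun _ _ _ _ h1 h2 => Pi.le_def.mpr (fun i => he _ _ _ _
      (Pi.le_def.mp (Subtype.coe_le_coe.mpr h1) i) (Pi.le_def.mp (Subtype.coe_le_coe.mpr h2) i)))
    (fun _ _ => Subtype.ext (funext (fun _ => hidem _ _)))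
    (fun _ _ => Subtype.ext (funext (fun _ => hge _ _)))
    (fun _ _ => Subtype.ext (funext (fun _ => hhe _ _)))
    (fun δ => by
      obtain ⟨c, hc⟩ := n1
      have s := htpOn_of_family (S := PB) (T := PA) (fun δ γ i => e (γ i) (δ i))
        (fun _ _ _ _ _ _ _ _ h1 h2 => Pi.le_def.mpr (fun i => he _ _ _ _
          (Pi.le_def.mp h2 i) (Pi.le_def.mp h1 i)))
        (fun δ hδ γ hγ => me γ hγ δ hδ) δ.2.2
      exact NullOn.restrict ⟨c, s.trans hc⟩ (fun γ hγ => me γ hγ δ.1 δ.2.1) ⟨γ0, hγ0⟩)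
    ⟨γ0, hγ0⟩
    (by
      have mp : MapsTo (fun (δ : ℕ → B) i => h (γ0 i) (δ i)) (Comp PB δs) (Comp PB δs) :=
        fun δ hδ => mK γ0 hγ0 δ hδ
      refine ⟨n, ?_⟩
      show Null ((mp.restrict _ _ _)^[n])
      rw [mp.iterate_restrict n]
      obtain ⟨c, hc⟩ := n2
      rw [← iter_pointwise (fun i => h (γ0 i)) n] at hc
      exact NullOn.restrict ⟨c, hc.comp (mp.iterate n)⟩ _ ⟨δs, hδs, Conn.rfl'⟩)
  have p1 : γ.1 ∈ Pth l z0.1 z1.1 := hPA ▸ γ.2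
  have p2 : δ.1 ∈ Pth l z0.2 z1.2 := hPB ▸ δ.2.1
  have p3 := Pth.map2 (g := fun (a : A) (b : B) => (a, b))
    (fun _ _ _ _ h1 h2 => Prod.mk_le_mk.mpr ⟨h1, h2⟩) p1 p2
  have := p3.1.conn (S := Fx g h) (fun i =>
    ⟨congrFun (congrArg Subtype.val h1) i, congrFun (congrArg Subtype.val h2) i⟩) l
  rw [p1.2.1, p2.2.1, p1.2.2 l le_rfl, p2.2.2 l le_rfl] at this
  exact this

end Pool.Agent.Lib.MP_6152be_co
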