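import Mathlib
import Pool.Agent.Lib.MP_6152be_co.L0

set_option autoImplicit false

/-! Reduction to an invariant subset on which one slot is null-homotopic. -/

namespace Pool.Agent.Lib.MP_6152be_co

open Relation Set Function

variable {P Q : Type*} [PartialOrder P] [PartialOrder Q]

theorem core [Finite P] (H : Set (P → P)) (hm : ∀ u ∈ H, Monotone u)
    (hcomp : ∀ u ∈ H, ∀ v ∈ H, u ∘ v ∈ H) (hconn : IsConn H) :
    ∃ κ ∈ H, ∀ u ∈ H, κ ∘ u ∘ κ = κ := by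
  obtain ⟨N, hN⟩ := exists_idem P
  have hit : ∀ u ∈ H, ∀ n, u^[n + 1] ∈ H := by
    intro u hu n
    induction n with
    | zero => exact hu
    | succ n ih => rw [iterate_succ]; exact hcomp _ ih _ hu
  have hrange : ∀ (u : P → P) n, range u^[n + 1] ⊆ range u := by
    rintro u n _ ⟨x, rfl⟩
    exact ⟨u^[n] x, (iterate_succ_apply' u n x).symm⟩
  obtain ⟨k0, hk0, hmin⟩ := Set.exists_min_image H (fun u => (range u).ncard) (Set.toFinite _)
    hconn.1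
  obtain ⟨κ, hκ⟩ : ∃ κ, κ = k0^[N + 1] := ⟨_, rfl⟩
  have hκH : κ ∈ H := hκ ▸ hit k0 hk0 N
  have hκκ : ∀ x, κ (κ x) = κ x := by rw [hκ]; exact hN k0
  have key : ∀ w ∈ H, range w ⊆ range κ → ∀ y, w^[N + 1] (κ y) = κ y := by
    intro w hw hr y
    have h1 : range w^[N + 1] = range κ :=
      Set.eq_of_subset_of_ncard_le ((hrange w N).trans hr)
        ((Set.ncard_le_ncard (hκ ▸ hrange k0 N)).trans (hmin _ (hit w hw N)))
    obtain ⟨z, hz⟩ : κ y ∈ range w^[N + 1] := h1 ▸ mem_range_self y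
    rw [← hz]
    exact hN w z
  refine ⟨κ, hκH, fun u hu => ?_⟩
  have hc := hconn.2 κ hκH u hu
  clear hu
  induction hc with
  | refl => funext x; simp only [comp_apply, hκκ]
  | @tail a b _ hs ih =>
    obtain ⟨ha, hb, hab⟩ := hs
    have hw : κ ∘ b ∘ κ ∈ H := hcomp _ hκH _ (hcomp _ hb _ hκH)
    have hwm := hm _ hw
    funext y
    have k1 := key _ hw (by rintro _ ⟨x, rfl⟩; exact ⟨_, rfl⟩) y
    have k2 : (κ ∘ b ∘ κ) (κ y) = (κ ∘ b ∘ κ) y := by simp only [comp_apply, hκκ]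
    have k3 : κ (a (κ y)) = κ y := congrFun ih y
    rw [← k2]
    rcases hab with hab | hab
    · have h1 : κ y ≤ (κ ∘ b ∘ κ) (κ y) := by
        rw [k2, ← k3]
        exact hm κ hκH (Pi.le_def.mp hab _)
      refine le_antisymm ?_ h1
      have := le_iter hwm (hwm h1) N
      rwa [← iterate_succ_apply, k1] at this
    · have h1 : (κ ∘ b ∘ κ) (κ y) ≤ κ y := by
        rw [k2]
        refine le_trans ?_ k3.le
        exact hm κ hκH (Pi.le_def.mp hab _)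
      refine le_antisymm h1 ?_
      have := iter_le hwm (hwm h1) N
      rwa [← iterate_succ_apply, k1] at this

theorem idem_a {α : Type*} {N : ℕ} {u : α → α} (h : Idem (N + 1) u) :
    u ∘ u^[N + 1] ∘ u^[2 * N + 1] = u^[N + 1] := by
  funext x
  rw [← h.mul 2 x]
  simp only [comp_apply]
  rw [← iterate_add_apply, ← iterate_succ_apply' u]
  congr 1
  simp only [Nat.succ_eq_add_one]
  ring

theorem idem_b {α : Type*} {N : ℕ} {u : α → α} (h : Idem (N + 1) u) :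
    u^[2 * N + 1] ∘ u^[N + 1] ∘ u = u^[N + 1] := by
  funext x
  rw [← h.mul 2 x]
  simp only [comp_apply]
  rw [← iterate_add_apply, ← iterate_succ_apply u]
  congr 1
  simp only [Nat.succ_eq_add_one]
  ring

theorem reduce [Finite P] [Finite Q] (g : P → Q → P) (h : P → Q → Q) (hg : M2 g) (hh : M2 h)
    (hQ : IsConn (univ : Set Q)) (hF : ∀ q, IsConn {p | g p q = p}) (N : ℕ)
    (hN : ∀ u : P → P, Idem (N + 1) u) :
    ∃ A : Set P, IsConn A ∧ (∀ a ∈ A, ∀ q, g a q ∈ A) ∧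
      (∀ q, NullOn A (fun p => g p q)^[N + 1]) ∧
      ∀ z ∈ Fx g h, ∃ z' ∈ Fx g h, z'.1 ∈ A ∧ Conn (Fx g h) z z' := by
  obtain ⟨q0, -⟩ := hQ.1
  obtain ⟨G, hG⟩ : ∃ G : Q → P → P, G = fun q p => g p q := ⟨_, rfl⟩
  have hGg : ∀ p q, G q p = g p q := fun p q => by rw [hG]
  have hGm : ∀ q, Monotone (G q) := fun q => hG ▸ hg.left q
  have hGq : Monotone G := fun q q' hq => Pi.le_def.mpr (fun p => by
    rw [hGg, hGg]; exact hg _ _ _ _ le_rfl hq)
  obtain ⟨ε, hε⟩ : ∃ ε, ε = (G q0)^[N + 1] := ⟨_, rfl⟩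
  obtain ⟨φ, hφ⟩ : ∃ φ, φ = (G q0)^[2 * N + 1] := ⟨_, rfl⟩
  have hεm : Monotone ε := hε ▸ (hGm q0).iterate _
  have hφm : Monotone φ := hφ ▸ (hGm q0).iterate _
  have hεε : ε ∘ ε = ε := by rw [hε]; funext x; exact hN _ x
  obtain ⟨H, hH⟩ : ∃ H, H = Comp {w : P → P | Monotone w} ε := ⟨_, rfl⟩
  have memH : ∀ u, u ∈ H ↔ Monotone u ∧ Htp u ε := fun u => by rw [hH]; rfl
  have hεH : ε ∈ H := (memH _).mpr ⟨hεm, Conn.rfl'⟩
  have hconn : IsConn H := hH ▸ isConn_comp hεm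
  have hmH : ∀ u ∈ H, Monotone u := fun u hu => ((memH u).mp hu).1
  have hcomp : ∀ u ∈ H, ∀ v ∈ H, u ∘ v ∈ H := by
    intro u hu v hv
    obtain ⟨u1, u2⟩ := (memH u).mp hu
    obtain ⟨v1, v2⟩ := (memH v).mp hv
    refine (memH _).mpr ⟨u1.comp v1, Conn.trans (u2.comp_right v1) ?_⟩
    have := v2.comp_left hεm
    rwa [hεε] at this
  have hGH : ∀ q, Htp (G q) (G q0) := fun q =>
    Conn.map G (hGq.monotoneOn _) (fun q _ => hGm q) (hQ.2 q (mem_univ _) q0 (mem_univ _))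
  have hc1 : ∀ q, ∀ w ∈ H, G q ∘ w ∘ φ ∈ H := by
    intro q w hw
    obtain ⟨w1, w2⟩ := (memH w).mp hw
    refine (memH _).mpr ⟨(hGm q).comp (w1.comp hφm),
      Conn.trans ((hGH q).comp_right (w1.comp hφm)) ?_⟩
    have := (w2.comp_right hφm).comp_left (hGm q0)
    have e : G q0 ∘ ε ∘ φ = ε := by rw [hε, hφ]; exact idem_a (hN _)
    rwa [e] at this
  have hc2 : ∀ w ∈ H, φ ∘ w ∘ G q0 ∈ H := by
    intro w hw
    obtain ⟨w1, w2⟩ := (memH w).mp hw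
    refine (memH _).mpr ⟨hφm.comp (w1.comp (hGm q0)), ?_⟩
    have := (w2.comp_right (hGm q0)).comp_left hφm
    have e : φ ∘ ε ∘ G q0 = ε := by rw [hε, hφ]; exact idem_b (hN _)
    rwa [e] at this
  have hpow : ∀ q, (G q)^[N + 1] ∈ H := by
    intro q
    refine (memH _).mpr ⟨(hGm q).iterate _, ?_⟩
    rw [hε]
    exact Conn.map (fun q => (G q)^[N + 1]) (fun a _ b _ hab => iter_mono (hGm a) (hGq hab) _)
      (fun q _ => (hGm q).iterate _) (hQ.2 q (mem_univ _) q0 (mem_univ _))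
  obtain ⟨κ, hκ, hκκ⟩ := core H hmH hcomp hconn
  obtain ⟨v, ⟨hvH, hvv⟩, hvf, -⟩ := follow (S := H)
    (T := {v | v ∈ H ∧ ∀ w ∈ H, v ∘ w ∘ v = v}) (Set.toFinite _)
    (fun u v => G q0 ∘ (u ∘ v ∘ u) ∘ φ)
    (fun u hu u' hu' v hv v' hv' h1 h2 => Pi.le_def.mpr (fun x => hGm q0
      ((Pi.le_def.mp h1 _).trans (hmH u' hu' ((Pi.le_def.mp h2 _).trans
        (hmH v' hv'.1 (Pi.le_def.mp h1 _)))))))
    (fun u hu v hv => ⟨hc1 q0 _ (hcomp _ hu _ (hcomp _ hv.1 _ hu)), fun w hw => by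
      have := hv.2 _ (hcomp _ hu _ (hcomp _ (hc2 w hw) _ hu))
      funext x
      exact congrArg (fun t => G q0 (u t)) (congrFun this (u (φ x)))⟩)
    (hconn.2 κ hκ ε hεH) (x := G q0 ∘ κ ∘ φ)
    ⟨hc1 q0 κ hκ, fun w hw => by
      have := hκκ _ (hc2 w hw)
      funext x
      exact congrArg (G q0) (congrFun this (φ x))⟩
    (by
      show G q0 ∘ (κ ∘ (G q0 ∘ κ ∘ φ) ∘ κ) ∘ φ = _
      rw [hκκ _ (hc1 q0 κ hκ)])
  obtain ⟨y0, hy0⟩ := (hF q0).1
  have hy0' : G q0 y0 = y0 := by rw [hGg]; exact hy0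
  obtain ⟨c, hc⟩ : ∃ c, c = v y0 := ⟨_, rfl⟩
  have hcf : G q0 c = c := by
    have h1 : G q0 (ε (v (ε (φ y0)))) = v y0 := congrFun hvf y0
    rw [hφ, iterate_fixed hy0', hε, iterate_fixed hy0', ← hc, ← iterate_succ_apply' (G q0)] at h1
    exact ((hN _).fix_iff c).mp h1
  have hφc : φ c = c := by rw [hφ]; exact iterate_fixed hcf _
  have hεc : ε c = c := by rw [hε]; exact iterate_fixed hcf _
  obtain ⟨A, hA⟩ : ∃ A : Set P, A = {p | ∃ u ∈ H, u c = p} := ⟨_, rfl⟩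
  have memA : ∀ p, p ∈ A ↔ ∃ u ∈ H, u c = p := fun p => by rw [hA]; rfl
  have hcA : c ∈ A := (memA c).mpr ⟨ε, hεH, hεc⟩
  have hHA : ∀ u ∈ H, ∀ a ∈ A, u a ∈ A := by
    intro u hu a ha
    obtain ⟨w, hw, rfl⟩ := (memA a).mp ha
    exact (memA _).mpr ⟨u ∘ w, hcomp _ hu _ hw, rfl⟩
  have hgA : ∀ a ∈ A, ∀ q, g a q ∈ A := by
    intro a ha q
    obtain ⟨w, hw, rfl⟩ := (memA a).mp ha
    refine (memA _).mpr ⟨_, hc1 q w hw, ?_⟩
    simp only [comp_apply, hφc, hGg]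
  refine ⟨A, ⟨⟨c, hcA⟩, fun a ha a' ha' => ?_⟩, hgA, fun q => ⟨c, ?_⟩, fun z hz => ?_⟩
  · obtain ⟨w, hw, rfl⟩ := (memA a).mp ha
    obtain ⟨w', hw', rfl⟩ := (memA a').mp ha'
    exact Conn.map (fun u : P → P => u c) (fun _ _ _ _ h1 => Pi.le_def.mp h1 c)
      (fun u hu => hHA u hu c hcA) (hconn.2 w hw w' hw')
  · have s := htpOn_of_family (S := H) (T := A) (fun u p => u p)
      (fun u _ u' hu' x _ x' _ h1 h2 => (Pi.le_def.mp h1 x).trans (hmH u' hu' h2))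
      hHA (hconn.2 _ (hpow q) v hvH)
    rw [hG] at s
    refine s.trans (htpOn_of_eq ((hmH v hvH).monotoneOn _) (fun a ha => hHA v hvH a ha) ?_)
    intro a ha
    obtain ⟨w, hw, rfl⟩ := (memA a).mp ha
    rw [hc]
    exact congrFun (hvv w hw) y0
  · obtain ⟨c', hc'A, hc'f, -⟩ := follow (S := (univ : Set Q)) (T := A) (Set.toFinite _) G
      (fun q _ q' _ x _ x' _ h1 h2 => by rw [hGg, hGg]; exact hg _ _ _ _ h2 h1)
      (fun q _ a ha => by rw [hGg]; exact hgA a ha q)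
      (hQ.2 q0 (mem_univ _) z.2 (mem_univ _)) hcA hcf
    rw [hGg] at hc'f
    have hz1 : G z.2 z.1 = z.1 := by rw [hGg]; exact hz.1
    have hψ := (hGm z.2).iterate (2 * N + 1)
    obtain ⟨⟨b, q⟩, hb, hbf, hcon⟩ := follow (S := {p | g p z.2 = p})
      (T := {w : (P → P) × Q | Monotone w.1}) (Set.toFinite _)
      (fun p w => (G w.2 ∘ w.1 ∘ (G z.2)^[2 * N + 1], h (w.1 p) w.2))
      (fun p _ p' _ w _ w' hw' h1 h2 => Prod.mk_le_mk.mpr
        ⟨Pi.le_def.mpr (fun x => (Pi.le_def.mp (hGq h2.2) _).trans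
          (hGm _ (Pi.le_def.mp h2.1 _))),
          hh _ _ _ _ ((Pi.le_def.mp h2.1 p).trans (hw' h1)) h2.2⟩)
      (fun p _ w hw => (hGm _).comp (Monotone.comp hw hψ))
      ((hF z.2).2 z.1 hz.1 c' hc'f) (x := ((G z.2)^[N + 1], z.2)) ((hGm _).iterate _)
      (Prod.ext (idem_a (hN _)) (by
        show h ((G z.2)^[N + 1] z.1) z.2 = z.2
        rw [iterate_fixed hz1]
        exact hz.2))
    have hev : ∀ w : P × (P → P) × Q, g w.1 z.2 = w.1 →
        (G w.2.2 ∘ w.2.1 ∘ (G z.2)^[2 * N + 1], h (w.2.1 w.1) w.2.2) = w.2 →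
        (w.2.1 w.1, w.2.2) ∈ Fx g h := by
      intro w h1 h2
      refine ⟨?_, congrArg Prod.snd h2⟩
      have h3 := congrFun (congrArg Prod.fst h2) w.1
      rw [← hGg] at h1
      simp only [comp_apply, iterate_fixed h1, hGg] at h3
      exact h3
    have c1 := Conn.map (T := Fx g h) (fun w : P × (P → P) × Q => (w.2.1 w.1, w.2.2))
      (fun w _ w' hw' h1 => by
        obtain ⟨h2, h3⟩ := Prod.le_def.mp h1
        obtain ⟨h4, h5⟩ := Prod.le_def.mp h3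
        exact Prod.mk_le_mk.mpr ⟨(Pi.le_def.mp h4 _).trans (hw'.2.1 h2), h5⟩)
      (fun w hw => hev w hw.1 hw.2.2) hcon
    have c2 : Htp (G z.2)^[N + 1] b := Conn.map (T := {w : P → P | Monotone w})
      (fun w : P × (P → P) × Q => w.2.1)
      (fun w _ w' _ h1 => (Prod.le_def.mp (Prod.le_def.mp h1).2).1) (fun w hw => hw.2.1) hcon
    have hbH : b ∈ H := (memH b).mpr ⟨hb, Conn.trans (Conn.symm c2) ((memH _).mp (hpow z.2)).2⟩
    refine ⟨(b c', q), hev (c', b, q) hc'f hbf, hHA b hbH c' hc'A, ?_⟩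
    simp only [iterate_fixed hz1] at c1
    exact c1

end Pool.Agent.Lib.MP_6152be_co
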