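import Mathlib
import Pool.Agent.Lib.MP_6152be_co.NN
import Pool.Agent.Lib.MP_6152be_co.Reduce

set_option autoImplicit false

/-! The connected fixed point property is preserved by products of finite ordered sets. -/

namespace Pool.Agent.Lib.MP_6152be_co

open Relation Set Function

theorem isConn_of_retract {X Y : Type*} [PartialOrder X] [PartialOrder Y] {S : Set X} {T : Set Y}
    (ι : X → Y) (hι : Monotone ι) (hm : MapsTo ι S T) (hS : IsConn S)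
    (h : ∀ z ∈ T, ∃ w ∈ S, Conn T z (ι w)) : IsConn T := by
  obtain ⟨⟨x, hx⟩, h2⟩ := hS
  refine ⟨⟨ι x, hm hx⟩, fun z hz z' hz' => ?_⟩
  obtain ⟨w, hw, c⟩ := h z hz
  obtain ⟨w', hw', c'⟩ := h z' hz'
  exact c.trans ((Conn.map ι (hι.monotoneOn _) hm (h2 w hw w' hw')).trans c'.symm)

theorem stage2 {A Q : Type*} [PartialOrder A] [PartialOrder Q] [Finite A] [Finite Q]
    (g : A → Q → A) (h : A → Q → Q) (e : A → Q → A)
    (hg : M2 g) (hh : M2 h) (he : M2 e) (hidem : ∀ a b, e (e a b) b = e a b)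
    (hge : ∀ a b, g (e a b) b = g a b) (hhe : ∀ a b, h (e a b) b = h a b)
    (hfix : ∀ a b, g a b = a → e a b = a)
    (hnull : ∀ b, Null (fun a => e a b)) (hF : ∀ a, IsConn {q | h a q = q})
    (hA : IsConn (univ : Set A)) : IsConn (Fx g h) := by
  obtain ⟨N, hN⟩ := exists_idem Q
  obtain ⟨B, hB, hBm, hBn, hBc⟩ := reduce (fun q a => h a q) (fun q a => g a q)
    (fun _ _ _ _ h1 h2 => hh _ _ _ _ h2 h1) (fun _ _ _ _ h1 h2 => hg _ _ _ _ h2 h1) hA hF N hN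
  have key := nn (A := A) (B := B) (fun a b => g a b.1) (fun a b => ⟨h a b.1, hBm _ b.2 a⟩)
    (fun a b => e a b.1) (fun _ _ _ _ h1 h2 => hg _ _ _ _ h1 h2)
    (fun _ _ _ _ h1 h2 => hh _ _ _ _ h1 h2) (fun _ _ _ _ h1 h2 => he _ _ _ _ h1 h2)
    (fun _ _ => hidem _ _) (fun _ _ => hge _ _) (fun _ _ => Subtype.ext (hhe _ _))
    (fun _ _ => hfix _ _) (fun _ => hnull _)
    (fun a => by
      have mp : MapsTo (fun q => h a q) B B := fun q hq => hBm q hq a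
      refine ⟨N + 1, ?_⟩
      show Null ((mp.restrict _ _ _)^[N + 1])
      rw [mp.iterate_restrict]
      exact (hBn a).restrict _ hB.1) hA
  refine isConn_of_retract (fun w : A × B => (w.1, w.2.1))
    (fun w w' h1 => Prod.mk_le_mk.mpr ⟨(Prod.le_def.mp h1).1, (Prod.le_def.mp h1).2⟩)
    (fun w hw => ⟨hw.1, congrArg Subtype.val hw.2⟩) key (fun z hz => ?_)
  obtain ⟨z', hz', hzB, c⟩ := hBc z.swap ⟨hz.2, hz.1⟩
  refine ⟨(z'.2, ⟨z'.1, hzB⟩), ⟨hz'.2, Subtype.ext hz'.1⟩, ?_⟩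
  exact Conn.map (T := Fx g h) Prod.swap (fun _ _ _ _ h1 => Prod.swap_le_swap.mpr h1)
    (fun w hw => ⟨hw.2, hw.1⟩) c

theorem cfpp_prod {P Q : Type*} [PartialOrder P] [PartialOrder Q] [Finite P] [Finite Q]
    (hP : CFPP P) (hQ : CFPP Q) : CFPP (P × Q) := by
  intro f hf
  obtain ⟨g, hgf⟩ : ∃ g : P → Q → P, g = fun p q => (f (p, q)).1 := ⟨_, rfl⟩
  obtain ⟨h, hhf⟩ : ∃ h : P → Q → Q, h = fun p q => (f (p, q)).2 := ⟨_, rfl⟩
  have hg : M2 g := by
    rw [hgf]; exact fun _ _ _ _ h1 h2 => (hf (Prod.mk_le_mk.mpr ⟨h1, h2⟩)).1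
  have hh : M2 h := by
    rw [hhf]; exact fun _ _ _ _ h1 h2 => (hf (Prod.mk_le_mk.mpr ⟨h1, h2⟩)).2
  have e0 : {x | f x = x} = Fx g h := by
    rw [hgf, hhf]
    ext z
    exact Prod.ext_iff
  rw [e0]
  obtain ⟨N, hN⟩ := exists_idem P
  obtain ⟨A, hA, hAm, hAn, hAc⟩ := reduce g h hg hh (hQ id monotone_id |>.imp
      (fun ⟨x, _⟩ => ⟨x, mem_univ _⟩)
      (fun h1 x _ y _ => (h1 x rfl y rfl).mono (subset_univ _)))
    (fun q => hP _ (hg.left q)) N hN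
  have mp : ∀ q, MapsTo (fun p => g p q) A A := fun q p hp => hAm p hp q
  obtain ⟨E, hE⟩ : ∃ E : P → Q → P, E = fun p q => (fun p => g p q)^[N + 1] p := ⟨_, rfl⟩
  have hEm : M2 E := by
    rw [hE]
    intro p p' q q' h1 h2
    exact (Pi.le_def.mp (iter_mono (hg.left q)
      (Pi.le_def.mpr (fun x => hg _ _ _ _ le_rfl h2)) (N + 1)) p).trans
      ((hg.left q').iterate _ h1)
  have hEA : ∀ a ∈ A, ∀ q, E a q ∈ A := by
    rw [hE]; exact fun a ha q => (mp q).iterate (N + 1) ha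
  have hEE : ∀ p q, E (E p q) q = E p q := by
    rw [hE]; exact fun p q => hN _ p
  have hE1 : ∀ p q, g p q = p → E p q = p := by
    rw [hE]; exact fun p q h1 => iterate_fixed (f := fun p => g p q) h1 _
  have hE2 : ∀ p q, g (E p q) q = p → g p q = p := by
    rw [hE]
    intro p q h1
    refine ((hN (fun p => g p q)).fix_iff p).mp ?_
    rw [iterate_succ_apply']
    exact h1
  have key := stage2 (A := A) (Q := Q) (fun a q => ⟨g (E a q) q, hAm _ (hEA _ a.2 q) q⟩)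
    (fun a q => h (E a q) q) (fun a q => ⟨E a q, hEA _ a.2 q⟩)
    (fun _ _ _ _ h1 h2 => hg _ _ _ _ (hEm _ _ _ _ h1 h2) h2)
    (fun _ _ _ _ h1 h2 => hh _ _ _ _ (hEm _ _ _ _ h1 h2) h2)
    (fun _ _ _ _ h1 h2 => hEm _ _ _ _ h1 h2)
    (fun _ _ => Subtype.ext (hEE _ _))
    (fun a q => Subtype.ext (congrArg (fun t => g t q) (hEE _ _)))
    (fun a q => congrArg (fun t => h t q) (hEE _ _))
    (fun a q h1 => Subtype.ext (hE1 _ _ (hE2 _ _ (congrArg Subtype.val h1))))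
    (fun q => by
      have := (hAn q).restrict ((mp q).iterate (N + 1)) hA.1
      subst hE
      exact this)
    (fun a => hQ _ (fun q q' h1 => hh _ _ _ _ (hEm _ _ _ _ le_rfl h1) h1)) hA.subtype
  refine isConn_of_retract (fun w : A × Q => (w.1.1, w.2))
    (fun w w' h1 => Prod.mk_le_mk.mpr ⟨(Prod.le_def.mp h1).1, (Prod.le_def.mp h1).2⟩) (fun w hw => ?_) key (fun z hz => ?_)
  · have h1 := hE2 _ _ (congrArg Subtype.val hw.1)
    have h2 : h (E w.1.1 w.2) w.2 = w.2 := hw.2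
    rw [hE1 _ _ h1] at h2
    exact ⟨h1, h2⟩
  · obtain ⟨z', hz', hzA, c⟩ := hAc z hz
    refine ⟨(⟨z'.1, hzA⟩, z'.2), ⟨Subtype.ext ?_, ?_⟩, c⟩
    · show g (E z'.1 z'.2) z'.2 = z'.1
      rw [hE1 _ _ hz'.1]
      exact hz'.1
    · show h (E z'.1 z'.2) z'.2 = z'.2
      rw [hE1 _ _ hz'.1]
      exact hz'.2

end Pool.Agent.Lib.MP_6152be_co
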